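import Pool.Agent.Lib.MP_696deb_nt.QK.Top

/-! The density statement together with the converse theorems in rank zero and one. -/

set_option autoImplicit false

open scoped Classical
open Filter Topology Module Finset

namespace Pool.Agent.Lib.MP_696deb_nt.QK

open QA (Wq Conv)
open QP (EQ)
open B2.Stmt (CorankLE)

/-- The converse theorem in rank one. -/
def One : Prop := ∀ D : ℤ, QA.Fam D → Pair D → ¬ Wq D →
  (∃ P : (EQ D).toAffine.Point, ¬ IsOfFinAddOrder P) ∧ ∀ F : ℂ → ℂ, Differentiable ℂ F →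
    (∀ s : ℂ, (3 : ℝ) / 2 < s.re → HasProd (fun p : ℕ =>
      if p.Prime ∧ ¬ ((p : ℤ) ∣ 2 * (-4 * (-D) ^ 3 - 27 * 0 ^ 2)) then
        (1 - ((p : ℂ) - (QF.cnt D p : ℂ)) * (p : ℂ) ^ (-s) + (p : ℂ) ^ (1 - 2 * s))⁻¹ else 1)
      (F s)) → F 1 = 0 → deriv F 1 ≠ 0

/-- The property of the twist by `D` that is counted. -/
def GoodF (r : ℕ) (D : ℤ) : Prop :=
  (r = 0 ↔ Wq D) ∧
  ∀ a b : ℤ, a = -D → b = 0 → ∀ W : WeierstrassCurve ℚ,
    W = { a₁ := 0, a₂ := 0, a₃ := 0, a₄ := (a : ℚ), a₆ := (b : ℚ) } →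
    ∃ F : ℂ → ℂ, Differentiable ℂ F ∧
      (∀ s : ℂ, (3 : ℝ) / 2 < s.re →
        HasProd
          (fun p : ℕ =>
            if p.Prime ∧ ¬ ((p : ℤ) ∣ 2 * (-4 * a ^ 3 - 27 * b ^ 2)) then
              (1 - ((p : ℂ) - (Nat.card {q : ZMod p × ZMod p //
                  q.2 ^ 2 = q.1 ^ 3 + (a : ZMod p) * q.1 + (b : ZMod p)} : ℂ))
                  * (p : ℂ) ^ (-s) + (p : ℂ) ^ (1 - 2 * s))⁻¹
            else 1)
          (F s)) ∧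
      IsLeast {n : ℕ | CorankLE W n} r ∧ Module.Finite ℤ W.toAffine.Point ∧
      finrank ℤ W.toAffine.Point = r ∧
      analyticOrderAt F 1 = (finrank ℤ W.toAffine.Point : ℕ∞)

theorem goodF (hc : Conv) (ho : One) {D : ℤ} (hD : QA.Fam D) (h : Pair D) :
    GoodF (if Wq D then 0 else 1) D := by
  obtain ⟨k0, k⟩ := QA.good hD h.1
  refine ⟨k0, ?_⟩
  rintro _ _ rfl rfl _ rfl
  obtain ⟨F, h1, h2, h3, h4, h5, h6⟩ := k _ _ rfl rfl _ rfl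
  refine ⟨F, h1, h2, h3, h4, ?_⟩
  by_cases w : Wq D
  · obtain ⟨-, -, -, -, q, q1, q2, -, q3, -⟩ := h
    rw [if_pos w] at h3 h5 ⊢
    rw [Nat.le_zero.1 h5, Nat.cast_zero]
    exact ⟨rfl, (h1.analyticAt 1).analyticOrderAt_eq_zero.2 (hc D hD q q1 q2 q3 h3.1 F h1 h2)⟩
  · obtain ⟨⟨P, hP⟩, k⟩ := ho D hD h w
    rw [if_neg w] at h5 h6 ⊢
    have z := (h1.analyticAt 1).analyticOrderAt_ne_zero.1 (Order.one_le_iff_ne_zero.1 h6)
    rw [h5.antisymm (Nat.pos_of_ne_zero fun e =>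
      hP (isOfFinAddOrder_iff_zsmul_eq_zero.2 (finrank_eq_zero_iff.1 e P)))]
    exact ⟨rfl, (h1.analyticAt 1).analyticOrderAt_eq_one_of_zero_deriv_ne_zero z (k F h1 h2 z)⟩

theorem tendF (hc : Conv) (ho : One) {r : ℕ} (hr : r ≤ 1) :
    Tendsto (fun X : ℕ => (Set.ncard {D : ℤ | |D| ≤ X ∧ QA.Fam D ∧ GoodF r D} : ℝ) /
      (Set.ncard {D : ℤ | |D| ≤ X ∧ QA.Fam D} : ℝ)) atTop (𝓝 (1 / 2)) := by
  refine QA.half4 (P := GoodF) (fun d a b => one_ne_zero (b.1.2 (a.1.1 rfl))) (fun ε hε => ?_) hr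
  obtain ⟨X0, h⟩ := pair_core hε
  refine ⟨X0, fun X hX => le_trans (Nat.cast_le.2 (card_le_card fun d hd => ?_)) (h X hX)⟩
  simp only [mem_filter] at hd ⊢
  exact ⟨hd.1, hd.2.1, fun k => hd.2.2 (goodF hc ho hd.2.1 k)⟩

end Pool.Agent.Lib.MP_696deb_nt.QK
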