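import Pool.Agent.Lib.MP_696deb_nt.Q4.Link
import Pool.Agent.Lib.MP_696deb_nt.QA.EllS
import Pool.Agent.Lib.MP_696deb_nt.QA.SelS

/-! From few liftable classes to the corank bound. -/

set_option autoImplicit false

open scoped Classical

namespace Pool.Agent.Lib.MP_696deb_nt.QK

open Sm Q4
open QA (Fam)

open WeierstrassCurve WeierstrassCurve.Affine B2.Stmt

theorem link_mainU (t : Tw) (hD : Fam t.N) {q : ℕ} (hq : q.Prime) (hq2 : q ≠ 2)
    (hq1 : t.U q) {r C : ℕ}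
    (h : ∀ k, (t.ZZ (2 * k)).ncard ≤ C * (4 * 2 ^ r) ^ k) : CorankLE (ED t.N) r := by
  refine ⟨2 * C, fun k s hs hc => ?_⟩
  let Φ : (GQ → Pts (ED t.N) Qb) × A → GQ → A := fun x =>
    (fun g => linkPsi t.ne t.pw (x.1 g)) + t.cob x.2
  let U := (finite_tors (2 * k)).toFinset
  have hU : ∀ S ∈ U, w ^ (2 * k) • S = 0 := fun S hS => (finite_tors _).mem_toFinset.1 hS
  have h1 : (s ×ˢ U).card ≤ 2 * ((s ×ˢ U).image Φ).card := by
    refine Finset.card_le_mul_card_image _ _ fun y hy => ?_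
    obtain ⟨⟨ξ, S⟩, hx, rfl⟩ := Finset.mem_image.1 hy
    obtain ⟨hξ, hS⟩ := Finset.mem_product.1 hx
    refine (Finset.card_le_card (t := Finset.univ.image fun b : F2 => (ξ, S + kT b)) ?_).trans
      (Finset.card_image_le.trans (by simp))
    rintro ⟨η, S'⟩ hx'
    obtain ⟨hx1, e⟩ := Finset.mem_filter.1 hx'
    obtain ⟨hη, hS'⟩ := Finset.mem_product.1 hx1
    have hd : w ^ (2 * k) • (S' - S) = 0 := by rw [smul_sub, hU S hS, hU S' hS', sub_zero]
    have e1 : ∀ g, linkPsi t.ne t.pw (ξ g) - linkPsi t.ne t.pw (η g) = t.cob (S' - S) g := fun g => by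
      have e2 : linkPsi t.ne t.pw (η g) + t.cob S' g = linkPsi t.ne t.pw (ξ g) + t.cob S g :=
        congrFun e g
      simp only [Tw.cob, map_sub] at e2 ⊢
      rw [sub_eq_iff_eq_add, ← sub_eq_iff_eq_add.2 e2.symm]
      abel
    obtain rfl : ξ = η := hc ξ hξ η hη ⟨(linkPsi t.ne t.pw).symm (S' - S),
      (map_nsmul (linkPsi t.ne t.pw).symm _ _).symm.trans
        ((congrArg _ ((two_pow_iff k _).2 hd)).trans (map_zero _)),
      fun g : GQ => (linkPsi t.ne t.pw).injective (by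
        rw [map_sub, map_sub, link_pm t.ne t.pw, AddEquiv.apply_symm_apply]
        exact e1 g)⟩
    have e3 := e1 (sig q)
    rw [sub_self, t.cob_sig hq hq2 hd] at e3
    obtain ⟨b, hb⟩ := exists_kT (hq1.unit.smul_eq_zero.1 e3.symm)
    exact Finset.mem_image.2 ⟨b, Finset.mem_univ _, by rw [← hb, add_sub_cancel]⟩
  have h3 : ((s ×ˢ U).image Φ).card ≤ (t.ZZ (2 * k)).ncard := by
    rw [← Set.ncard_coe_finset]
    refine Set.ncard_le_ncard (fun y hy => ?_) (t.finite_ZZ _)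
    obtain ⟨⟨ξ, S⟩, hx, rfl⟩ := Finset.mem_image.1 (Finset.mem_coe.1 hy)
    obtain ⟨hξ, hS⟩ := Finset.mem_product.1 hx
    exact ((link_sel t (hs ξ hξ)).isZ3 hD).add ((link_cob t (hU S hS)).isZ3 hD)
  have h4 : 4 ^ k ≤ U.card := by
    rw [show 4 = 2 ^ 2 from rfl, ← pow_mul]
    exact (link_card _).trans_eq (Set.ncard_eq_toFinset_card _ _)
  rw [Finset.card_product] at h1
  refine Nat.le_of_mul_le_mul_right (c := 4 ^ k) ?_ (by positivity)
  calc s.card * 4 ^ k ≤ 2 * (C * (4 * 2 ^ r) ^ k) :=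
        ((Nat.mul_le_mul_left _ h4).trans h1).trans (Nat.mul_le_mul_left _ (h3.trans (h k)))
    _ = 2 * C * 2 ^ (r * k) * 4 ^ k := by rw [mul_pow, pow_mul]; ring

theorem corank_ofU {D : ℤ} (hD : Fam D) {q : ℕ} (hq : q.Prime) (hq2 : q ≠ 2)
    (hq1 : Odd (padicValInt q D)) {m : ℕ} (h : ¬ (tD D).Big (2 * m)) : CorankLE (ED D) 1 := by
  obtain ⟨C, hC⟩ := Tw.card_ZZ_le h
  have e := tD_N hD.ne
  have k := link_mainU (tD D) (e.symm ▸ hD) hq hq2 (by
    rw [Tw.U, e, chi_sig hq hq2 hD.ne, ZMod.natCast_eq_one_iff_odd.2 hq1]) (r := 1) (C := C) hC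
  rwa [e] at k

/-- A fourth power of a divisor does not change the liftable classes. -/
theorem big_scale {N m : ℤ} (hN : N ≠ 0) (hm : m ∣ N) {n : ℕ} (h : (tD N).Big n) :
    (tD (N * m ^ 4)).Big n := by
  have m0 : m ≠ 0 := ne_zero_of_dvd_ne_zero hN hm
  have n0 : N * m ^ 4 ≠ 0 := mul_ne_zero hN (pow_ne_zero _ m0)
  let t : Tw := ⟨(tD N).ρ * m, N * m ^ 4, n0, by
    rw [mul_pow, (tD N).pw, tD_N hN, Int.cast_mul, Int.cast_pow]⟩
  have hz : ∀ g, zq (m : Qb) g = 1 := fun g => by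
    rw [zq, map_intCast, div_self (Int.cast_ne_zero.2 m0)]
  have k : ∀ j, ((tD N).it j).AA n ⊆ (t.it j).AA n := by
    rintro j _ ⟨c, hc, rfl⟩
    refine ⟨c, hc.congr (fun g => ?_) fun q hq h2 => ?_, rfl⟩
    · change zq ((tD N).ρ * m * _) g = zq ((tD N).ρ * _) g
      rw [zq_mul, zq_mul, zq_mul, hz, mul_one]
    · have hP := Nat.prime_iff_prime_int.1 hq
      rw [Tw.dvd_it _ hq h2, Tw.dvd_it _ hq h2, tD_N hN]
      exact ⟨fun e => (hP.dvd_or_dvd e).elim id fun e => (hP.dvd_of_dvd_pow e).trans hm,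
        fun e => e.mul_right _⟩
  have f : ∀ j, ((t.it j).AA n).Finite := fun j => (Tw.finite_one _).subset (Tw.AA_sub _ n)
  have k0 := Set.ncard_le_ncard (k 0) (f 0)
  rw [Tw.it_zero, Tw.it_zero] at k0
  exact Tw.Big.same (t := t) (h.trans (Nat.mul_le_mul k0 (Set.ncard_le_ncard (k 1) (f 1))))
    (tD_N n0)

end Pool.Agent.Lib.MP_696deb_nt.QK
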