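import Pool.Agent.Lib.MP_696deb_nt.QK.Step
import Pool.Agent.Lib.MP_696deb_nt.Sm.Chain

/-! The first moment of the number of lifts. -/

set_option autoImplicit false

open scoped Classical
open Finset Function

namespace Pool.Agent.Lib.MP_696deb_nt.QK.KB

open Sm Q4
open Sm.Box (DD dD pat lam mem_fib mem_pts pata_ne step_prod step_Df step_val step_off)

/-- The total number of lifts. -/
noncomputable def qW (B : KB) (a : B.Mat) (j k : ℕ) (P : B.Pat) : ℕ :=
  ∑ x ∈ B.fib a, (((B.qT x).it j).Om k (B.qc x P)).ncard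

/-- The number of points with a lift that has prescribed values. -/
noncomputable def chYY (B : KB) (a : B.Mat) (j k : ℕ) (P : B.Pat) (Jev : Finset (Fin B.r))
    (e : Fin B.r → A) : ℕ := ({x ∈ B.fib a | ∃ c ∈ ((B.qT x).it j).Om k (B.qc x P),
      ∀ i ∈ Jev, c (sig (x i)) = e i} : Finset _).card

/-- The possible values. -/
noncomputable def chEV (B : KB) (k : ℕ) (Jev : Finset (Fin B.r)) : Finset (Fin B.r → A) :=
  Fintype.piFinset fun j => if j ∈ Jev then (finite_tors (k + 1)).toFinset else {0}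

/-- The Selmer patterns that can be used for a step. -/
noncomputable def chBJ (B : KB) (a : B.Mat) (j k : ℕ) (j0 j1 : Fin B.r) (J : Finset (Fin B.r)) :
    Finset B.Pat := {b ∈ B.qS (j + 1) a | b (.inr j0) = 0 ∧ (Even k → b (.inr j1) = 0) ∧
      ∀ i ∈ J, b (.inr i) = 0}

variable {B : KB} {a : B.Mat} {j k : ℕ} {P : B.Pat} {J Jev : Finset (Fin B.r)} {e : Fin B.r → A}

theorem card_chEV (k : ℕ) (Jev : Finset (Fin B.r)) :
    (B.chEV k Jev).card = (finite_tors (k + 1)).toFinset.card ^ Jev.card := by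
  rw [chEV, Fintype.card_piFinset, ← prod_const (s := Jev), ← Fintype.prod_ite_mem Jev]
  refine prod_congr rfl fun j _ => ?_
  split_ifs
  · rfl
  · exact card_singleton _

theorem ch_fin (t : Tw) (k : ℕ) (z : GQ → A) : (t.Om k z).Finite :=
  (t.finite_ZZ (k + 1)).subset fun _ hc => hc.1

theorem ch_w {t : Tw} {S : Set ℕ} {c z : GQ → A} (h1 : (t.it j).IsZ S (k + 1 + 1) c)
    (h2 : w ^ (k + 1) • c = z) : w • c ∈ (t.it (j + 1)).Om k z :=
  ⟨by have := h1.wsmul; rwa [Tw.it_it] at this, by rw [← h2, pow_succ, mul_smul]⟩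

theorem qY_le_chYY : B.qY a (k + 1) j P J Jev e ≤ B.chYY a (j + 1) k P Jev e := by
  refine card_le_card fun x hx => ?_
  obtain ⟨hx, c, h1, h2, h3⟩ := mem_filter.1 hx
  exact mem_filter.2 ⟨hx, w • c, ch_w h1 h2, h3⟩

theorem sum_chYY_le : ∑ e ∈ B.chEV k Jev, B.chYY a j k P Jev e ≤ B.qW a j k P := by
  simp only [chYY, card_filter]
  rw [sum_comm]
  refine sum_le_sum fun x hx => ?_
  rw [← card_filter, ← Set.ncard_coe_finset]
  refine (Set.ncard_le_ncard (fun e he => ?_) ((ch_fin _ k _).image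
    fun c j => if j ∈ Jev then c (sig (x j)) else 0)).trans (Set.ncard_image_le (ch_fin _ k _))
  obtain ⟨he, c, h1, h2⟩ := mem_filter.1 he
  refine ⟨c, h1, funext fun j => ?_⟩
  have := Fintype.mem_piFinset.1 he j
  dsimp only
  split_ifs at this ⊢ with hj
  · exact h2 j hj
  · exact (mem_singleton.1 this).symm

theorem Wf.qW_succ_le (h : B.Wf) (hr : B.Rf) (hd : B.qD a Jev) :
    B.qW a j (k + 1) P ≤ (B.qS j a).card * ∑ e ∈ B.chEV k Jev, B.qY a (k + 1) j P ∅ Jev e := by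
  simp only [qY, card_filter]
  rw [sum_comm, mul_sum]
  refine sum_le_sum fun x hx => ?_
  refine (Tw.card_Om_succ _ _ _).trans (Nat.mul_le_mul (h.card_qS hr hx j).le ?_)
  rw [← card_filter, ← Set.ncard_coe_finset]
  refine Set.ncard_le_ncard_of_injOn (fun c j => if j ∈ Jev then c (sig (x j)) else 0) ?_ ?_
    (finite_toSet _)
  · rintro _ ⟨c, hc, rfl⟩
    refine mem_filter.2 ⟨Fintype.mem_piFinset.2 fun j => ?_, c, by simpa using hc.1, hc.2,
      fun j hj => by simp [hj]⟩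
    split_ifs
    · exact (Set.Finite.mem_toFinset _).2 (hc.1.wsmul.tors _)
    · exact mem_singleton_self _
  · rintro _ ⟨c, hc, rfl⟩ _ ⟨c', hc', rfl⟩ e
    refine sub_eq_zero.1 (Tw.detect (S := (fun j => sig (x j)) '' Jev)
      (fun i z hz h0 => h.qdet hr hd hx (by rwa [Tw.it_it, Tw.it_it] at hz)
        fun j hj => h0 _ ⟨j, hj, rfl⟩) (hc.1.wsmul.sub hc'.1.wsmul) ?_)
    rintro _ ⟨j, hj, rfl⟩
    have := congrFun e j
    simp only [if_pos (mem_coe.1 hj)] at this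
    exact sub_eq_zero.2 this

theorem qW_zero (hP : P ∈ B.qS j a) : B.qW a j 0 P = (B.fib a).card := by
  rw [qW, card_eq_sum_ones]
  exact sum_congr rfl fun x hx => Tw.card_Om_zero (isZ_of_qS hP hx)

theorem Wf.add_mem_chBJ (h : B.Wf) (j0 j1 : Fin B.r) : ∀ u ∈ B.chBJ a j k j0 j1 J,
    ∀ v ∈ B.chBJ a j k j0 j1 J, u + v ∈ B.chBJ a j k j0 j1 J := fun u hu v hv => by
  obtain ⟨u1, u2, u3, u4⟩ := mem_filter.1 hu
  obtain ⟨v1, v2, v3, v4⟩ := mem_filter.1 hv
  exact mem_filter.2 ⟨h.add_mem_qS u1 v1, by simp [u2, v2], fun hk => by simp [u3 hk, v3 hk],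
    fun i hi => by simp [u4 i hi, v4 i hi]⟩

theorem Wf.card_chBJ (h : B.Wf) (j0 j1 : Fin B.r) :
    (B.qS (j + 1) a).card ≤ (if Even k then 4 else 2) * (B.chBJ a j k j0 j1 ∅).card := by
  have a0 : ∀ u ∈ B.qS (j + 1) a, ∀ v ∈ B.qS (j + 1) a, u + v ∈ B.qS (j + 1) a :=
    fun _ hu _ hv => h.add_mem_qS hu hv
  have a1 := Box.chain_ker a0 (f := fun u => u (.inr j0)) fun _ _ => rfl
  have b0 := card_le_two_ker _ a0 (fun u => u (.inr j0)) fun _ _ => rfl
  have b1 := card_le_two_ker _ a1 (fun u => u (.inr j1)) fun _ _ => rfl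
  split_ifs with hk
  · have b3 := card_le_card (t := B.chBJ a j k j0 j1 ∅) (s := ((B.qS (j + 1) a).filter
        fun u => u (.inr j0) = 0).filter fun u => u (.inr j1) = 0) fun u hu => by
      simp only [mem_filter] at hu
      exact mem_filter.2 ⟨hu.1.1, hu.1.2, fun _ => hu.2, by simp⟩
    omega
  · have b3 := card_le_card (t := B.chBJ a j k j0 j1 ∅) (s := (B.qS (j + 1) a).filter
        fun u => u (.inr j0) = 0) fun u hu => by
      simp only [mem_filter] at hu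
      exact mem_filter.2 ⟨hu.1, hu.2, fun h => absurd h hk, by simp⟩
    omega

/-- One step of the flag. -/
theorem ch_step {K n m : ℕ} (hB : B.Hyp (2 * K ^ 2 * (2 * m + n + 3) + 1)) (hG : B.qG K a)
    (hne : (B.fib a).Nonempty) (hP : P ∈ B.qS (j + (k + 1)) a) {j0 j1 : Fin B.r}
    (h0 : P (.inr j0) = 0) (h1 : P (.inr j1) = 1) (hJ : J.card ≤ m) (hJev : Jev.card ≤ m)
    (hd : B.qD a Jev) (hb : 1 < (B.chBJ a j k j0 j1 J).card) :
    ∃ (b : B.Pat) (σ : Sx n → Fin B.r), B.QH a j P b J Jev σ ∧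
      2 * (B.chBJ a j k j0 j1 (J ∪ univ.image σ)).card = (B.chBJ a j k j0 j1 J).card := by
  obtain ⟨x, hx⟩ := hne
  have h := hB.wf
  have rel : ∀ i, ∀ Q ∈ B.qS i a, B.qR i a Q := fun i Q hQ => h.qR_of hx (isZ_of_qS hQ hx)
  have hF : (J ∪ Jev).card ≤ 2 * m := (card_union_le _ _).trans (by omega)
  obtain ⟨b, hb, b0⟩ := exists_mem_ne hb 0
  obtain ⟨b1, b2, -, b4⟩ := mem_filter.1 hb
  obtain ⟨j3, h3⟩ := Function.ne_iff.1 fun k => b0 ((rel _ b b1).eq_zero (hB.mono (by omega)) k)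
  have h3 : b (.inr j3) = 1 := (F2_cases _).resolve_left h3
  obtain ⟨σ, s1, s2, s3, s4, s5, s6, s7⟩ := exists_qdirs (n := n) (hB.mono (Nat.le_succ _)) hG
    (j + (k + 1)) (j + 1) j0 j1 j3 _ hF
  have key : ∀ u ∈ B.chBJ a j k j0 j1 J, (∀ i, i ≠ ic → u (.inr (σ i)) = 0) ∧
      u (.inr (σ ic)) = u (.inr j3) := fun u hu => by
    obtain ⟨u1, u2, u3, -⟩ := mem_filter.1 hu
    obtain ⟨k1, k2, k3⟩ := s7 u (rel _ u u1) u2
    refine ⟨?_, k2⟩
    rintro (i | _ | _) hi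
    · exact k1 i
    · exact (hi rfl).elim
    · refine k3.trans ?_
      split_ifs with hk
      · exact u3 (by rw [Nat.even_iff] at hk ⊢; omega)
      · rfl
  obtain ⟨k1, k2⟩ := s6 P (rel _ P hP) h0
  refine ⟨b, σ, ⟨s1, s3, s4, s5, fun i => notMem_union.1 (s2 i), hd, b1, k1, k2.trans h1, b4,
    (key b hb).1, (key b hb).2.trans h3⟩, ?_⟩
  have e : B.chBJ a j k j0 j1 (J ∪ univ.image σ) =
      {u ∈ B.chBJ a j k j0 j1 J | u (.inr j3) = 0} := by
    ext u
    have hJ' : u ∈ B.chBJ a j k j0 j1 J →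
        ((∀ i ∈ univ.image σ, u (.inr i) = 0) ↔ u (.inr j3) = 0) := fun hu => by
      refine ⟨fun g => (key u hu).2.symm.trans (g _ (mem_image_of_mem _ (mem_univ _))),
        fun g => forall_mem_image.2 fun i _ => ?_⟩
      by_cases hi : i = ic
      · rw [hi, (key u hu).2, g]
      · exact (key u hu).1 i hi
    rw [mem_filter (s := B.chBJ a j k j0 j1 J), ← and_congr_right hJ']
    simp only [chBJ, mem_filter, forall_mem_union, and_assoc]
  rw [e]
  exact le_antisymm (two_ker_le_card _ (h.add_mem_chBJ j0 j1) (fun u => u (.inr j3))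
    (fun _ _ => rfl) hb h3)
    (card_le_two_ker _ (h.add_mem_chBJ j0 j1) (fun u => u (.inr j3)) fun _ _ => rfl)

end Pool.Agent.Lib.MP_696deb_nt.QK.KB

namespace Pool.Agent.Lib.MP_696deb_nt.QK

open Sm Q4

/-- The product of the factors four and two of the first `k` steps. -/
def ck : ℕ → ℕ
  | 0 => 1
  | k + 1 => ck k * if Even k then 4 else 2

theorem ck_two (m : ℕ) : ck (2 * m) = 8 ^ m := by
  induction m with
  | zero => rfl
  | succ m ih =>
    rw [show 2 * (m + 1) = 2 * m + 1 + 1 by ring, ck, ck, ih, if_pos (even_two_mul m),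
      if_neg (by simp), pow_succ]
    ring

theorem chain_flag (K k : ℕ) {ε : ℝ} (hε : 0 < ε) : ∃ c : ℕ, ∀ B : KB,
    B.Hyp c → B.Rf → ∀ a : B.Mat, B.qG K a → ∀ j : ℕ, ∀ P ∈ B.qS (j + (k + 1)) a,
    ∀ j0 j1 : Fin B.r, P (.inr j0) = 0 → P (.inr j1) = 1 → ∀ Jev : Finset (Fin B.r),
    Jev.card ≤ K → B.qD a Jev → ∀ (e : Fin B.r → A) (y : ℕ),
    (∀ J, B.qY a (k + 1) j P J Jev e ≤ y) →
    (B.qY a (k + 1) j P ∅ Jev e : ℝ) * (B.chBJ a j k j0 j1 ∅).card ≤
      y + ε * (B.fib a).card * (B.chBJ a j k j0 j1 ∅).card := by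
  obtain ⟨c, hc⟩ := step_main (k + 1) (K * (k + 1 + 2) + K) (by omega) (half_pos hε)
  refine ⟨max c (2 * K ^ 2 * (2 * (K * (k + 1 + 2) + K) + (k + 1) + 3) + 1),
    fun B hB hr a hG j P hP j0 j1 h0 h1 Jev hJev hd e y hy => ?_⟩
  rcases (B.fib a).eq_empty_or_nonempty with hne | hne
  · simp [KB.qY, hne]
  have key : ∀ (t : ℕ) (J : Finset (Fin B.r)), (B.chBJ a j k j0 j1 J).card = t →
      J.card + t * (k + 1 + 2) ≤ K * (k + 1 + 2) →
      (B.qY a (k + 1) j P J Jev e : ℝ) * t ≤ y + ε * (B.fib a).card * t := fun t => by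
    induction t using Nat.strong_induction_on with
    | _ t ih =>
    intro J ht hJ
    have p0 : 0 ≤ ε * (B.fib a).card := by positivity
    have y0 : (B.qY a (k + 1) j P J Jev e : ℝ) ≤ y := Nat.cast_le.2 (hy J)
    by_cases h3 : t ≤ 1
    · have : (t : ℝ) ≤ 1 := by exact_mod_cast h3
      have := mul_le_mul y0 this (by positivity) (by positivity)
      have : 0 ≤ ε * (B.fib a).card * t := by positivity
      linarith
    obtain ⟨b, σ, k1, k2⟩ := KB.ch_step (n := k + 1) (m := K * (k + 1 + 2) + K)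
      (hB.mono (le_max_right _ _)) hG hne hP h0 h1 (J := J) (by omega) (by omega) hd (by omega)
    have k3 := hc B (hB.mono (le_max_left _ _)) hr a j P b J Jev σ e k1 (by omega) (by omega)
    have k4 : (J ∪ univ.image σ).card ≤ J.card + (k + 1 + 2) := (card_union_le _ _).trans
      (Nat.add_le_add_left (card_image_le.trans (by simp)) _)
    generalize hs : (B.chBJ a j k j0 j1 (J ∪ univ.image σ)).card = s at k2
    obtain rfl : t = 2 * s := by omega
    have k5 := ih s (by omega) _ hs (by nlinarith)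
    have k6 := mul_le_mul_of_nonneg_right k3 (Nat.cast_nonneg s : (0 : ℝ) ≤ s)
    push_cast
    linarith
  have k0 : (B.chBJ a j k j0 j1 ∅).card ≤ K :=
    (card_filter_le _ _).trans (hB.wf.card_qS_le hG hne _)
  exact key _ ∅ rfl (by simpa using k0)

theorem chain_gen (K k : ℕ) {ε : ℝ} (hε : 0 < ε) : ∃ c : ℕ, ∀ B : KB,
    B.Hyp c → B.Rf → ∀ a : B.Mat, B.qG K a → ∀ j : ℕ, ∀ P ∈ B.qS (j + k) a, ∀ j0 j1 : Fin B.r,
    P (.inr j0) = 0 → P (.inr j1) = 1 → (B.qW a j k P : ℝ) * (B.qS (j + k) a).card ≤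
      (ck k + ε) * (B.qS j a).card * (B.fib a).card := by
  induction k generalizing ε with
  | zero =>
    refine ⟨0, fun B _ _ a _ j P hP _ _ _ _ => ?_⟩
    rw [KB.qW_zero (j := j) hP, add_zero, ck]
    have : 0 ≤ ε * (B.qS j a).card * (B.fib a).card := by positivity
    push_cast
    nlinarith
  | succ k ih =>
    obtain ⟨c, hc⟩ := ih (ε := ε / 8) (by positivity)
    set τ : ℕ := (finite_tors (k + 1)).toFinset.card + 1 with hτ
    have τ0 : (0 : ℝ) < τ := by rw [hτ]; positivity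
    obtain ⟨c', hc'⟩ := chain_flag K k (ε := ε / (2 * τ ^ K * (K + 1))) (by positivity)
    refine ⟨max (max c c') 1, fun B hB hr a hG j P hP j0 j1 h0 h1 => ?_⟩
    rcases (B.fib a).eq_empty_or_nonempty with hne | hne
    · simp [KB.qW, hne]
    have h := hB.wf
    obtain ⟨Jev, hJ, hd⟩ := KB.exists_qD (hB.mono (le_max_right _ _)) hG hne
    have k1 := hc B (hB.mono ((le_max_left _ _).trans (le_max_left _ _))) hr a hG (j + 1) P
      (by rwa [show j + 1 + k = j + (k + 1) by ring]) j0 j1 h0 h1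
    rw [show j + 1 + k = j + (k + 1) by ring] at k1
    have k2 := sum_le_sum fun e (_ : e ∈ B.chEV k Jev) => hc' B
      (hB.mono ((le_max_right _ _).trans (le_max_left _ _))) hr a hG j P hP j0 j1 h0 h1 Jev hJ hd e _
      fun _ => KB.qY_le_chYY
    have k3 : (B.qW a j (k + 1) P : ℝ) ≤ (B.qS j a).card *
        ∑ e ∈ B.chEV k Jev, (B.qY a (k + 1) j P ∅ Jev e : ℝ) := by
      exact_mod_cast h.qW_succ_le hr hd
    have k4 : ∑ e ∈ B.chEV k Jev, (B.chYY a (j + 1) k P Jev e : ℝ) ≤ B.qW a (j + 1) k P := by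
      exact_mod_cast KB.sum_chYY_le
    have k5 : ((B.qS (j + (k + 1)) a).card : ℝ) ≤ K + 1 := by
      exact_mod_cast (h.card_qS_le hG hne _).trans (Nat.le_succ K)
    have k6 : ((B.chEV k Jev).card : ℝ) ≤ τ ^ K := by
      rw [KB.card_chEV]
      exact_mod_cast (Nat.pow_le_pow_left (Nat.le_succ _) _).trans
        (Nat.pow_le_pow_right (Nat.succ_pos _) hJ)
    have k8 : ((B.qS (j + 1) a).card : ℝ) ≤ ((if Even k then 4 else 2 : ℕ) : ℝ) *
        (B.chBJ a j k j0 j1 ∅).card := by exact_mod_cast h.card_chBJ j0 j1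
    have k9 : (0 : ℝ) < (B.chBJ a j k j0 j1 ∅).card := by
      have : 0 ∈ B.chBJ a j k j0 j1 ∅ := mem_filter.2 ⟨h.zero_mem_qS, rfl, fun _ => rfl, by simp⟩
      exact_mod_cast card_pos.2 ⟨0, this⟩
    have k10 : ((if Even k then 4 else 2 : ℕ) : ℝ) ≤ 4 := by split_ifs <;> norm_num
    rw [← sum_mul, sum_add_distrib, sum_const, nsmul_eq_mul] at k2
    rw [ck, Nat.cast_mul]
    generalize ((if Even k then 4 else 2 : ℕ) : ℝ) = f at k8 k10
    set Y := ∑ e ∈ B.chEV k Jev, (B.qY a (k + 1) j P ∅ Jev e : ℝ)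
    set β : ℝ := ((B.chBJ a j k j0 j1 ∅).card : ℝ)
    set s : ℝ := ((B.qS (j + (k + 1)) a).card : ℝ) with hs
    set F : ℝ := ((B.fib a).card : ℝ) with hF
    have s0 : 0 ≤ s := by rw [hs]; positivity
    have F0 : 0 ≤ F := by rw [hF]; positivity
    have k7 : (B.chEV k Jev).card * (ε / (2 * τ ^ K * (K + 1)) * F * β) * s ≤
        τ ^ K * (ε / (2 * τ ^ K * (K + 1)) * F * β) * (K + 1) := by gcongr
    rw [show (τ : ℝ) ^ K * (ε / (2 * τ ^ K * (K + 1)) * F * β) * (K + 1) = ε / 2 * F * β by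
      field_simp] at k7
    have m1 := mul_le_mul_of_nonneg_right (k2.trans (add_le_add_left k4 _)) s0
    have m2 : (ck k + ε / 8) * ((B.qS (j + 1) a).card : ℝ) * F ≤ (ck k + ε / 8) * (f * β) * F := by
      gcongr
    have m3 : ε / 8 * F * β * f ≤ ε / 8 * F * β * 4 := by gcongr
    have m4 : Y * s ≤ (ck k * f + ε) * F := le_of_mul_le_mul_right (by nlinarith) k9
    calc _ ≤ (B.qS j a).card * Y * s := mul_le_mul_of_nonneg_right k3 s0
      _ = (B.qS j a).card * (Y * s) := by ring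
      _ ≤ (B.qS j a).card * ((ck k * f + ε) * F) := by gcongr
      _ = _ := by ring

theorem chain_main (K m : ℕ) {ε : ℝ} (hε : 0 < ε) : ∃ c : ℕ, ∀ B : KB,
    B.Hyp c → B.Rf → ∀ a : B.Mat, B.qG K a → ∀ j : ℕ, ∀ P ∈ B.qS j a, ∀ j0 j1 : Fin B.r,
    P (.inr j0) = 0 → P (.inr j1) = 1 →
    (B.qW a j (2 * m) P : ℝ) ≤ (8 ^ m + ε) * (B.fib a).card := by
  obtain ⟨c, hc⟩ := chain_gen K (2 * m) hε
  refine ⟨c, fun B hB hr a hG j P hP j0 j1 h0 h1 => ?_⟩
  have h := hc B hB hr a hG j P (by rwa [KB.qS_add]) j0 j1 h0 h1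
  rw [KB.qS_add, ck_two] at h
  have k : (0 : ℝ) < (B.qS j a).card := by exact_mod_cast card_pos.2 ⟨P, hP⟩
  push_cast at h
  exact le_of_mul_le_mul_right (by linarith) k

end Pool.Agent.Lib.MP_696deb_nt.QK
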