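import Pool.Agent.Lib.MP_696deb_nt.QK.Few

/-! The companion of a quartic twist. -/

set_option autoImplicit false

open scoped Classical
open Finset

namespace Pool.Agent.Lib.MP_696deb_nt.QK

open Q4
open QA (Fam W2 n2 Wq val_two)
open B2.Stmt (CorankLE)

variable {C D N N' : ℤ} {κ : ℕ}

/-- The integer `N'` is `5 N ^ 3` with the fourth powers removed. -/
def Comp (N N' : ℤ) : Prop := Fam N' ∧ ∃ m : ℤ, m ≠ 0 ∧ 5 * N ^ 3 = N' * m ^ 4

/-- The twist and its companion have corank at most one. -/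
def Pair (N : ℤ) : Prop := CorankLE (ED N) 1 ∧ ∃ N', Comp N N' ∧ CorankLE (ED N') 1 ∧
  ∃ q : ℕ, q.Prime ∧ q ≠ 2 ∧ q ≠ 5 ∧ Odd (padicValInt q N) ∧ Odd (padicValInt q N')

theorem exists_red {n : ℤ} (hn : n ≠ 0) : ∃ N m : ℤ, Fam N ∧ m ≠ 0 ∧ n = N * m ^ 4 := by
  induction h : n.natAbs using Nat.strong_induction_on generalizing n with
  | _ k ih =>
  by_cases f : Fam n
  · exact ⟨n, 1, f, one_ne_zero, by ring⟩
  obtain ⟨p, hp, c, rfl⟩ : ∃ p : ℕ, p.Prime ∧ (p : ℤ) ^ 4 ∣ n := by simpa [Fam] using f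
  have c0 : c ≠ 0 := right_ne_zero_of_mul hn
  obtain ⟨N, m, h1, h2, h3⟩ := ih c.natAbs (by
    rw [← h, Int.natAbs_mul, Int.natAbs_pow, Int.natAbs_natCast]
    exact lt_mul_of_one_lt_left (Int.natAbs_pos.2 c0) (Nat.one_lt_pow four_ne_zero hp.one_lt)) c0 rfl
  exact ⟨N, m * p, h1, mul_ne_zero h2 (Int.natCast_ne_zero.2 hp.ne_zero), by rw [h3]; ring⟩

theorem exists_comp (hN : N ≠ 0) : ∃ N', Comp N N' := by
  obtain ⟨N', m, h1, h2, h3⟩ := exists_red (n := 5 * N ^ 3) (by positivity)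
  exact ⟨N', h1, m, h2, h3⟩

theorem two_split {n : ℤ} (hn : n ≠ 0) : ∃ u : ℤ, u % 2 = 1 ∧ n = 2 ^ padicValInt 2 n * u := by
  obtain ⟨u, hu⟩ := padicValInt_dvd (p := 2) n
  refine ⟨u, by_contra fun k => ?_, hu⟩
  obtain ⟨c, rfl⟩ : 2 ∣ u := by omega
  have := ((padicValInt_dvd_iff (p := 2) (padicValInt 2 n + 1) n).1
    ⟨c, hu.trans (by ring)⟩).resolve_left hn
  omega

theorem Comp.val (hN : N ≠ 0) (h : Comp N N') {p : ℕ} (hp : p.Prime) (h5 : p ≠ 5) :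
    ∃ c, 3 * padicValInt p N = padicValInt p N' + 4 * c := by
  obtain ⟨h1, m, h2, h3⟩ := h
  have := Fact.mk hp
  have e := congrArg (padicValInt p) h3
  rw [padicValInt.mul (by norm_num) (pow_ne_zero _ hN), padicValInt.mul h1.ne (pow_ne_zero _ h2),
    val_pow hp, val_pow hp, padicValInt.eq_zero_of_not_dvd fun k => h5
      ((Nat.prime_dvd_prime_iff_eq hp Nat.prime_five).1 (by exact_mod_cast k)), zero_add] at e
  exact ⟨_, e⟩

theorem Comp.w2 (hN : Fam N) (h : Comp N N') : W2 N' ↔ ¬ W2 N := by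
  obtain ⟨h1, m, h2, h3⟩ := h
  obtain ⟨u, u1, u2⟩ := two_split hN.ne
  obtain ⟨v, v1, v2⟩ := two_split h1.ne
  obtain ⟨t, t1, t2⟩ := two_split h2
  have a1 := (fam_iff hN.ne).1 hN 2 Nat.prime_two
  have a2 := (fam_iff h1.ne).1 h1 2 Nat.prime_two
  have e0 := congrArg (padicValInt 2) h3
  rw [padicValInt.mul (by norm_num) (pow_ne_zero _ hN.ne),
    padicValInt.mul h1.ne (pow_ne_zero _ h2), val_pow Nat.prime_two, val_pow Nat.prime_two,
    padicValInt.eq_zero_of_not_dvd (by norm_num), zero_add] at e0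
  generalize padicValInt 2 N = a at *
  generalize padicValInt 2 N' = b at *
  generalize padicValInt 2 m = d at *
  have e1 : 5 * u ^ 3 = v * t ^ 4 := mul_left_cancel₀ (pow_ne_zero (3 * a) two_ne_zero) (by
    rw [u2, v2, t2] at h3
    conv_rhs => rw [e0, pow_add]
    linear_combination h3)
  have e2 : t ^ 4 ≡ 1 [ZMOD 16] := by
    obtain ⟨s, hs⟩ := Int.eight_dvd_sq_sub_one_of_odd (Int.odd_iff.2 t1)
    exact (Int.modEq_iff_dvd.2 ⟨s + 4 * s ^ 2, by linear_combination (t ^ 2 + 1 + 8 * s) * hs⟩).symm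
  have e3 : 5 * (u % 16) ^ 3 ≡ v [ZMOD 16] :=
    (((Int.mod_modEq u 16).pow 3).mul_left 5).trans (e1 ▸ by simpa using e2.mul_left v)
  have e4 : (u % 16 = 1 ∧ v % 16 = 5) ∨ (u % 16 = 3 ∧ v % 16 = 7) ∨ (u % 16 = 5 ∧ v % 16 = 1) ∨
      (u % 16 = 7 ∧ v % 16 = 3) ∨ (u % 16 = 9 ∧ v % 16 = 13) ∨ (u % 16 = 11 ∧ v % 16 = 15) ∨
      (u % 16 = 13 ∧ v % 16 = 9) ∨ (u % 16 = 15 ∧ v % 16 = 11) := by
    rw [Int.ModEq] at e3
    rcases (by omega : u % 16 = 1 ∨ u % 16 = 3 ∨ u % 16 = 5 ∨ u % 16 = 7 ∨ u % 16 = 9 ∨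
      u % 16 = 11 ∨ u % 16 = 13 ∨ u % 16 = 15) with k | k | k | k | k | k | k | k <;>
      rw [k] at e3 <;> norm_num at e3 <;> omega
  have k0 : ∀ x : ℤ, x % 2 = 1 → (W2 (2 ^ 0 * x) ↔
      x % 16 = 1 ∨ x % 16 = 3 ∨ x % 16 = 11 ∨ x % 16 = 13) := fun x hx => by unfold W2; omega
  have k1 : ∀ x : ℤ, x % 2 = 1 → ¬ W2 (2 ^ 1 * x) := fun x hx => by unfold W2; omega
  have k2 : ∀ x : ℤ, x % 2 = 1 → (W2 (2 ^ 2 * x) ↔
      x % 16 = 1 ∨ x % 16 = 7 ∨ x % 16 = 9 ∨ x % 16 = 11) := fun x hx => by unfold W2; omega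
  have k3 : ∀ x : ℤ, x % 2 = 1 → W2 (2 ^ 3 * x) := fun x hx => by unfold W2; omega
  have k4 : a = 0 ∧ b = 0 ∨ a = 1 ∧ b = 3 ∨ a = 2 ∧ b = 2 ∨ a = 3 ∧ b = 1 := by
    clear * - e0 a1 a2
    interval_cases a <;> omega
  rw [u2, v2]
  rcases k4 with ⟨rfl, rfl⟩ | ⟨rfl, rfl⟩ | ⟨rfl, rfl⟩ | ⟨rfl, rfl⟩
  · rw [k0 u u1, k0 v v1]
    omega
  · exact iff_of_true (k3 v v1) (k1 u u1)
  · rw [k2 u u1, k2 v v1]
    omega
  · exact iff_of_false (k1 v v1) (not_not.2 (k3 u u1))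

/-- The companion has the opposite root number. -/
theorem Comp.wq (hN : Fam N) (h : Comp N N') : Wq N' ↔ ¬ Wq N := by
  have h2 : n2 N' = n2 N := by
    unfold n2
    congr 1
    ext p
    refine and_congr_right fun hp => and_congr_right fun p3 => ?_
    obtain ⟨c, hc⟩ := h.val hN.ne hp (by omega)
    have a1 := (fam_iff hN.ne).1 hN p hp
    have a2 := (fam_iff h.1.ne).1 h.1 p hp
    rw [← val_two hN.ne hp, ← val_two h.1.ne hp]
    omega
  have h3 : 0 < N' ↔ 0 < N := by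
    obtain ⟨-, m, m0, e⟩ := h
    rw [← mul_pos_iff_of_pos_right (show 0 < m ^ 4 by positivity), ← e,
      mul_pos_iff_of_pos_left (by norm_num), (by decide : Odd 3).pow_pos_iff]
  rw [Wq, Wq, h2, h3, h.w2 hN]
  by_cases a : 0 < N <;> by_cases b : W2 N <;> simp [a, b]

/-- Almost all twists by `C D` or by `C D ^ 3` have a good companion. -/
theorem pair_few (hC : Fam C) (hκ : κ ≤ 1) {ε : ℝ} (hε : 0 < ε) : ∃ X0 : ℕ, ∀ X ≥ X0,
    (((Icc (-(X : ℤ)) X).filter fun D => (Squarefree D ∧ IsCoprime D (5 * C)) ∧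
      ¬ Pair (C * D ^ (2 * κ + 1))).card : ℝ) ≤ ε * X := by
  obtain ⟨C', h1, m, h2, h3⟩ := exists_comp hC.ne
  obtain ⟨X0, a0⟩ := fewK hC hκ (half_pos hε)
  obtain ⟨X1, a1⟩ := fewK h1 (κ := 1 - κ) (by omega) (half_pos hε)
  refine ⟨max X0 X1, fun X hX => ?_⟩
  refine le_trans (Nat.cast_le.2 ((card_le_card fun D hD => ?_).trans (card_union_le _ _)))
    ((Nat.cast_add _ _).trans_le ((add_le_add (a0 X (le_of_max_le_left hX))
      (a1 X (le_of_max_le_right hX))).trans_eq (by ring)))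
  obtain ⟨b1, ⟨b2, b3⟩, b4⟩ := mem_filter.1 hD
  have c1 := b3.of_mul_right_right
  have c2 : IsCoprime D C' := (h3 ▸ b3.of_mul_right_left.mul_right c1.pow_right :
    IsCoprime D (C' * m ^ 4)).of_mul_right_left
  rw [mem_union, mem_filter, mem_filter]
  by_contra k
  simp only [b1, b2, c1, c2, true_and, not_or, not_not] at k
  obtain ⟨q, q1, q2, q3⟩ := exists_odd b2 k.1.1
  refine b4 ⟨k.1.2, _, ⟨fam_mul h1 b2 c2 (by omega), m * D ^ (2 * κ),
    mul_ne_zero h2 (pow_ne_zero _ b2.ne_zero), ?_⟩, k.2.2, q, q1, q2, ?_, ?_, ?_⟩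
  · obtain rfl | rfl : κ = 0 ∨ κ = 1 := by omega
    · linear_combination D ^ 3 * h3
    · linear_combination D ^ 9 * h3
  · rintro rfl
    exact (Nat.prime_iff_prime_int.1 q1).not_isUnit (b3.isUnit_of_dvd' q3 (dvd_mul_right _ _))
  · rw [val_mul q1 hC.ne b2 c1, if_pos q3]
    exact odd_two_mul_add_one _
  · rw [val_mul q1 h1.ne b2 c2, if_pos q3]
    exact odd_two_mul_add_one _

theorem exists_smooth (hD : Fam D) {K : ℕ} (hK : ¬ ∃ k, K < k ∧ k * k ∣ D.natAbs) :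
    ∃ (b : ℕ) (d : ℤ), D = b * d ∧ Squarefree d ∧ IsCoprime d K.factorial ∧
      b ∣ K.factorial ^ 3 := by
  obtain ⟨e, d, rfl, h1, -, h2⟩ := QA.exists_rad hD hK
  obtain ⟨c, hc⟩ := Int.gcd_dvd_left d K.factorial
  have h3 : Squarefree ((d.gcd K.factorial : ℤ) * c) := hc ▸ h1
  refine ⟨e * d.gcd K.factorial, c, by rw [Nat.cast_mul, mul_assoc, ← hc], h3.of_mul_right,
    isCoprime_of_prime_dvd (fun k => h3.of_mul_right.ne_zero k.1) fun p hp a b => hp.not_isUnit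
      (h3 p (mul_dvd_mul (Int.dvd_coe_gcd (hc ▸ a.mul_left _) b) a)), ?_⟩
  rw [pow_succ]
  exact mul_dvd_mul h2 (Int.natCast_dvd_natCast.1 (Int.gcd_dvd_right _ _))

/-- Almost all quartic twists have a good companion. -/
theorem pair_core {ε : ℝ} (h : 0 < ε) : ∃ X0 : ℕ, ∀ X ≥ X0,
    (((Icc (-(X : ℤ)) X).filter fun D => Fam D ∧ ¬ Pair D).card : ℝ) ≤ ε * X := by
  obtain ⟨K, hK⟩ := exists_nat_gt (max (8 / ε) 5)
  have K5 : 5 ≤ K := by exact_mod_cast (le_max_right _ _).trans hK.le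
  replace hK := (le_max_left _ _).trans_lt hK
  have Kp : (0 : ℝ) < K := Nat.cast_pos.2 (by omega)
  obtain ⟨L, hL⟩ : ∃ L, L = K.factorial ^ 3 := ⟨_, rfl⟩
  have L0 : L ≠ 0 := hL ▸ pow_ne_zero _ K.factorial_ne_zero
  have Lp : (0 : ℝ) < L := Nat.cast_pos.2 (Nat.pos_of_ne_zero L0)
  choose! X0 h1 using fun (b : ℕ) (hb : Fam b) =>
    pair_few hb (κ := 0) zero_le_one (ε := ε / (2 * L)) (by positivity)
  refine ⟨L.divisors.sup X0, fun X hX => ?_⟩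
  let A : ℕ → Finset ℤ := fun b => (Icc (-(X : ℤ)) X).filter fun d =>
    (Squarefree d ∧ IsCoprime d (5 * b)) ∧ ¬ Pair (b * d ^ (2 * 0 + 1))
  have k3 : ((Icc (-(X : ℤ)) X).filter fun D => Fam D ∧ ¬ Pair D) ⊆
      ((Icc (-(X : ℤ)) X).filter fun D => D ≠ 0 ∧ ∃ k, K < k ∧ k * k ∣ D.natAbs) ∪
        (L.divisors.filter fun b : ℕ => Fam b).biUnion fun b => (A b).image ((b : ℤ) * ·) :=
    fun D hD => by
      obtain ⟨a, b, c⟩ := mem_filter.1 hD
      by_cases k : ∃ k, K < k ∧ k * k ∣ D.natAbs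
      · exact mem_union_left _ (mem_filter.2 ⟨a, b.ne, k⟩)
      obtain ⟨e, d, rfl, s1, s2, s3⟩ := exists_smooth b k
      have e0 : e ≠ 0 := ne_zero_of_dvd_ne_zero L0 (hL ▸ s3)
      have l : d.natAbs ≤ ((e : ℤ) * d).natAbs := by
        rw [Int.natAbs_mul, Int.natAbs_natCast]
        exact Nat.le_mul_of_pos_left _ (Nat.pos_of_ne_zero e0)
      rw [mem_Icc] at a
      refine mem_union_right _ (mem_biUnion.2 ⟨e, mem_filter.2 ⟨Nat.mem_divisors.2 ⟨hL ▸ s3, L0⟩,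
        fun p hp k => b p hp (k.mul_right _)⟩, mem_image.2 ⟨d, mem_filter.2 ⟨mem_Icc.2 (by omega),
          ⟨s1, IsCoprime.mul_right (s2.of_isCoprime_of_dvd_right ?_)
            ((s2.pow_right (n := 3)).of_isCoprime_of_dvd_right ?_)⟩, by simpa using c⟩, rfl⟩⟩)
      · exact_mod_cast Nat.dvd_factorial (by norm_num) K5
      · exact_mod_cast s3
  have k4 := Nat.cast_le (α := ℝ).2 ((card_le_card k3).trans ((card_union_le _ _).trans
    (add_le_add le_rfl card_biUnion_le)))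
  have k5 : ∀ b ∈ L.divisors.filter fun b : ℕ => Fam b,
      (((A b).image ((b : ℤ) * ·)).card : ℝ) ≤ ε / (2 * L) * X := fun b hb =>
    (Nat.cast_le.2 card_image_le).trans (h1 b (mem_filter.1 hb).2 X
      ((le_sup (f := X0) (mem_filter.1 hb).1).trans hX))
  have k6 := sum_le_card_nsmul _ _ _ k5
  have k7 : ((L.divisors.filter fun b : ℕ => Fam b).card : ℝ) ≤ L :=
    Nat.cast_le.2 ((card_filter_le _ _).trans (Nat.card_divisors_le_self L))
  have k8 := QA.core_sq (K := K) (by omega) X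
  have k9 : 2 * ((X : ℝ) / K) ≤ ε / 4 * X := by
    rw [div_lt_iff₀ h] at hK
    rw [← mul_div_assoc, div_le_iff₀ Kp]
    nlinarith [Nat.cast_nonneg (α := ℝ) X]
  have k10 : (L : ℝ) * (ε / (2 * L) * X) = ε / 2 * X := by field_simp
  rw [nsmul_eq_mul] at k6
  have k11 := mul_le_mul_of_nonneg_right k7 (by positivity : (0 : ℝ) ≤ ε / (2 * L) * X)
  have k12 : 0 ≤ ε * X := by positivity
  push_cast at k4
  linarith

end Pool.Agent.Lib.MP_696deb_nt.QK
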