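import Pool.Agent.Lib.MP_696deb_nt.QK.Main
import Pool.Agent.Lib.MP_696deb_nt.QK.Link
import Pool.Agent.Lib.MP_696deb_nt.QA.Core

/-! Twists by a fixed integer times the first or third power of a squarefree integer. -/

set_option autoImplicit false

open scoped Classical
open Finset

namespace Pool.Agent.Lib.MP_696deb_nt.QK

open Q4
open QA (Fam)
open B2.Stmt (CorankLE)

variable {B D : ℤ} {p k κ : ℕ}

theorem val_pow (hp : p.Prime) (a : ℤ) (n : ℕ) : padicValInt p (a ^ n) = n * padicValInt p a := by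
  have := Fact.mk hp
  rw [padicValInt, padicValInt, Int.natAbs_pow, padicValNat.pow]

theorem val_one (hp : p.Prime) (h : Squarefree D) (k : (p : ℤ) ∣ D) : padicValInt p D = 1 := by
  rw [padicValInt, ← Nat.factorization_def _ hp]
  exact Nat.factorization_eq_one_of_squarefree (Int.squarefree_natAbs.2 h) hp (Int.natCast_dvd.1 k)

theorem val_mul (hp : p.Prime) (hB : B ≠ 0) (hD : Squarefree D) (hc : IsCoprime D B) (k : ℕ) :
    padicValInt p (B * D ^ k) = if (p : ℤ) ∣ D then k else padicValInt p B := by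
  have := Fact.mk hp
  rw [padicValInt.mul hB (pow_ne_zero _ hD.ne_zero), val_pow hp]
  split_ifs with h
  · rw [val_one hp hD h, padicValInt.eq_zero_of_not_dvd fun l =>
      (Nat.prime_iff_prime_int.1 hp).not_isUnit (hc.isUnit_of_dvd' h l), zero_add, mul_one]
  · rw [padicValInt.eq_zero_of_not_dvd h, mul_zero, add_zero]

theorem fam_iff (hB : B ≠ 0) : Fam B ↔ ∀ p : ℕ, p.Prime → padicValInt p B ≤ 3 :=
  forall₂_congr fun p hp => by
    have := Fact.mk hp
    rw [padicValInt_dvd_iff, or_iff_right hB]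
    omega

theorem fam_mul (hB : Fam B) (hD : Squarefree D) (hc : IsCoprime D B) (hk : k ≤ 3) :
    Fam (B * D ^ k) := (fam_iff (mul_ne_zero hB.ne (pow_ne_zero _ hD.ne_zero))).2 fun p hp => by
  rw [val_mul hp hB.ne hD hc]
  split_ifs
  exacts [hk, (fam_iff hB.ne).1 hB p hp]

theorem exists_odd (hD : Squarefree D) (h : 2 < D.natAbs) :
    ∃ q : ℕ, q.Prime ∧ q ≠ 2 ∧ (q : ℤ) ∣ D := by
  obtain ⟨q, q1, q2, q3⟩ := QA.exists_one one_ne_zero hD (by omega)
  refine ⟨q, q1, q2, by_contra fun k => ?_⟩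
  rw [Nat.cast_one, one_mul, padicValInt.eq_zero_of_not_dvd k] at q3
  exact zero_ne_one q3

theorem exists_shape (hB : B ≠ 0) (hκ : κ ≤ 1) : ∃ (c m : ℤ) (e : ℕ), c ≠ 0 ∧ e ≠ 0 ∧ m ∣ B ∧
    (∀ p : ℕ, p.Prime → p ∣ e → (p : ℤ) ∣ c) ∧ ∀ D, Squarefree D → IsCoprime D B →
      Squarefree (c * D) ∧ B * D ^ (2 * κ + 1) * m ^ 4 = e * (c * D) ^ (2 * κ + 1) := by
  have n0 : B.natAbs ≠ 0 := Int.natAbs_ne_zero.2 hB
  have r1 := UniqueFactorizationMonoid.radical_dvd_self (a := B.natAbs)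
  have r2 := UniqueFactorizationMonoid.squarefree_radical (a := B.natAbs)
  have r3 (p : ℕ) (hp : p.Prime) (h : p ∣ B.natAbs) :
      p ∣ UniqueFactorizationMonoid.radical B.natAbs :=
    (UniqueFactorizationMonoid.dvd_radical_iff_of_irreducible hp n0).2 h
  generalize UniqueFactorizationMonoid.radical B.natAbs = r at r1 r2 r3
  have r4 : (r : ℤ) ∣ B := Int.natCast_dvd.2 r1
  have s : B.sign = 1 ∨ B.sign = -1 := (lt_or_gt_of_ne hB).symm.imp Int.sign_eq_one_of_pos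
    Int.sign_eq_neg_one_of_neg
  have u := Int.isUnit_iff.2 s
  refine ⟨B.sign * r, r, B.natAbs * r ^ (3 - 2 * κ), by simp [hB, r2.ne_zero],
    by simp [hB, r2.ne_zero], r4, fun p hp k => Dvd.dvd.mul_left (Int.natCast_dvd_natCast.2
      ((hp.dvd_mul.1 k).elim (r3 p hp) hp.dvd_of_dvd_pow)) _, fun D h hc => ⟨?_, ?_⟩⟩
  · rw [mul_assoc]
    exact squarefree_mul_iff.2 ⟨u.isRelPrime_left, u.squarefree, squarefree_mul_iff.2
      ⟨(hc.symm.of_isCoprime_of_dvd_left r4).isRelPrime, Int.squarefree_natCast.2 r2, h⟩⟩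
  · have e1 := Int.sign_mul_natAbs B
    push_cast
    rw [Int.natCast_natAbs] at e1
    generalize |B| = b at e1
    generalize B.sign = t at e1 s
    obtain rfl | rfl : κ = 0 ∨ κ = 1 := by omega
    all_goals rcases s with rfl | rfl <;> subst e1 <;> simp <;> ring

/-- Almost all twists by `B D` or by `B D ^ 3` have corank at most one. -/
theorem fewK (hB : Fam B) (hκ : κ ≤ 1) {ε : ℝ} (hε : 0 < ε) : ∃ X0 : ℕ, ∀ X ≥ X0,
    (((Icc (-(X : ℤ)) X).filter fun D => (Squarefree D ∧ IsCoprime D B) ∧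
      ¬ (2 < D.natAbs ∧ CorankLE (ED (B * D ^ (2 * κ + 1))) 1)).card : ℝ) ≤ ε * X := by
  obtain ⟨c, m, e, c0, e0, h0, h1, h2⟩ := exists_shape hB.ne hκ
  obtain ⟨n, hn⟩ : ∃ n, n = c.natAbs := ⟨_, rfl⟩
  have n0 : 0 < n := hn ▸ Int.natAbs_pos.2 c0
  have n1 : (0 : ℝ) < n := Nat.cast_pos.2 n0
  obtain ⟨l, X0, h3⟩ := few_bad e0 κ (ε := ε / (2 * n)) (by positivity)
  obtain ⟨X1, h4⟩ := exists_nat_ge (10 / ε)
  refine ⟨max X0 X1, fun X hX => ?_⟩
  have k2 : (10 : ℝ) ≤ ε * X := by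
    rw [div_le_iff₀' hε] at h4
    exact h4.trans (mul_le_mul_of_nonneg_left (Nat.cast_le.2 (le_of_max_le_right hX)) hε.le)
  let S : Finset ℤ := (Icc (-(X : ℤ)) X).filter fun D => Squarefree (c * D) ∧ BadE e κ l (c * D)
  have k3 : ((Icc (-(X : ℤ)) X).filter fun D => (Squarefree D ∧ IsCoprime D B) ∧
      ¬ (2 < D.natAbs ∧ CorankLE (ED (B * D ^ (2 * κ + 1))) 1)) ⊆ S ∪ Icc (-2) 2 := fun D hD => by
    obtain ⟨a1, ⟨a2, a4⟩, a3⟩ := mem_filter.1 hD
    by_cases k : 2 < D.natAbs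
    swap
    · exact mem_union_right _ (mem_Icc.2 (by omega))
    obtain ⟨q, q1, q2, q3⟩ := exists_odd a2 k
    have f : Fam (B * D ^ (2 * κ + 1)) := fam_mul hB a2 a4 (by omega)
    refine mem_union_left _ (mem_filter.2 ⟨a1, (h2 D a2 a4).1,
      fun p hp k => (h1 p hp k).mul_right _, ?_⟩)
    rw [← (h2 D a2 a4).2]
    refine big_scale f.ne (h0.mul_right _) (by_contra fun k' => a3 ⟨k, corank_ofU f q1 q2 ?_ k'⟩)
    rw [val_mul q1 hB.ne a2 a4, if_pos q3]
    exact odd_two_mul_add_one κ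
  have k4 : (S.card : ℝ) ≤ ε / 2 * X := by
    refine le_trans (Nat.cast_le.2 (card_le_card_of_injOn (c * ·) (fun D hD => ?_)
      fun _ _ _ _ => mul_left_cancel₀ c0)) ((h3 (n * X)
        ((le_of_max_le_left hX).trans (Nat.le_mul_of_pos_left X n0))).trans (le_of_eq ?_))
    · simp only [S, coe_filter, mem_Icc, Set.mem_ofPred_eq, ← abs_le] at hD ⊢
      refine ⟨?_, hD.2⟩
      rw [abs_mul, ← Int.natCast_natAbs c, ← hn, Nat.cast_mul]
      exact mul_le_mul_of_nonneg_left hD.1 (by positivity)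
    · push_cast
      field_simp
  have k5 := Nat.cast_le (α := ℝ).2 ((card_le_card k3).trans (card_union_le _ _))
  rw [show (Icc (-2 : ℤ) 2).card = 5 by decide] at k5
  push_cast at k5
  linarith

end Pool.Agent.Lib.MP_696deb_nt.QK
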