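import Pool.Agent.Lib.MP_696deb_nt.QK.GridC

/-! The grid lemma. -/

set_option autoImplicit false

open scoped Classical
open Finset Function

namespace Pool.Agent.Lib.MP_696deb_nt.QK

open Sm Q4
open Sm.Gd (sum_supp sum_zero sum_mono sum_cl Lam pow_F2 card_Sx lam_of_cl off lam_off card_erase)

namespace Gd

variable {n M : ℕ} {G : Gd n M} {e : ℕ → A} {Y : Set (Zg n M)}
  {c : Zg n M → GQ → A} {b : Zg n M → ℤ} {x : Zg n M}

theorem lam_cl (hb : ∀ y, b y ≠ 0 → y ∈ Y) (hx : Cl (2 ^ (n + 1)) b x) {γ : Type}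
    [CommMonoidWithZero γ] {φ : γ → ℤ} (h0 : φ 0 = 0) {β : Sx n → Fin (M + 1) → γ}
    (hβ : ∀ i, β i (x i) = 0) {R : Finset (Sx n)} (hR : 0 < R.card) :
    Lam Y (univ \ R) fun y => b y * φ (∏ j ∈ R, β j (y j)) := by
  obtain ⟨i, hi⟩ := card_pos.1 hR
  exact lam_of_cl hb hx (by rw [prod_eq_zero hi (hβ i), h0]) fun j hj y s =>
    congrArg φ (prod_congr rfl fun j' hj' => by
      rw [update_of_ne (by rintro rfl; exact (mem_sdiff.1 hj).2 hj')])

theorem card_sd (R : Finset (Sx n)) : (univ \ R).card + R.card = n + 2 := by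
  rw [card_sdiff_add_card_eq_card (subset_univ _), card_Sx]

theorem Mono.defect (h : G.Ok) (hm : G.Mono e Y c) (hb : ∀ y, b y ≠ 0 → y ∈ Y)
    (hx : Cl (2 ^ (n + 1)) b x) (i : Sx n) : (∀ g, w • Sg c 0 (off b x i) g = 0) ∧
      Sg c 0 (off b x i) (sig (G.pr i (x i))) = 0 ∧
      (G.t x).LocT (G.pr i (x i)) (Sg c 0 b - Sg c 0 (off b x i)) := by
  refine ⟨fun g => ?_, ?_, ?_⟩
  · have h3 := Sg_pow c 1 0 (off b x i) g
    rw [hm.bs (fun j _ => hm.as h j) le_rfl (lam_off hb hx i) (by rw [card_erase i]),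
      pow_one] at h3
    exact h3.symm
  · rw [Sg_apply]
    refine sum_zero (Y := {y | y ∈ Y ∧ y i ≠ x i}) (fun y hy => ⟨hb y (left_ne_zero_of_mul hy),
      fun k => hy (by simp [k])⟩) fun y hy => ?_
    rw [hm.sig_ne h hy.1 hy.2, smul_zero]
  · have h1 := hm.locq h x 0 (a := fun y => b y * if y i = x i then 1 else 0)
      (Y' := {y | y ∈ Y ∧ y i = x i}) (fun _ k => k.1) (fun y hy => ⟨hb y (left_ne_zero_of_mul hy),
        by_contra fun k => hy (by simp [k])⟩) (h.prime i (x i)) (h.ne_two _ _)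
      (h.U x _ (.inr ⟨i, rfl⟩)) (fun y hy j => ?_) (u := 0) (fun _ _ => rfl)
      (fun y hy => ?_) fun R r β hR hβ => ?_
    · rw [Tw.it_zero] at h1
      refine h1.congr (fun _ _ => rfl) fun g _ => ?_
      rw [Sg, Sg, ← sum_sub_distrib]
      refine congrFun (sum_congr rfl fun y _ => ?_) g
      by_cases k : y i = x i <;> simp [off, k]
    · by_cases k : j = i
      · exact .inl (k ▸ hy.2)
      · exact .inr ⟨fun k' => k (h.pr_dvd k').1.symm, fun k' => k (h.pr_dvd k').1.symm,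
          h.cross j _ _ i _ (Ne.symm k)⟩
    · rw [Pi.zero_apply, sub_zero]
      exact (hm.lf y hy.1).1.ram _ (h.prime _ _) (h.ne_two _ _) ((h.dvd_N (h.prime _ _) y).2
        (.inr ⟨i, by rw [hy.2]⟩)) (h.notJ _ _)
    · obtain ⟨j, hj⟩ := card_pos.1 (r.succ_pos.trans_eq hR.symm)
      have h2 : Lam Y ((univ \ R).erase i) fun y =>
          b y * ((if y i = x i then 1 else 0) * ∏ i ∈ R, β i (y i)) :=
        lam_of_cl hb hx (by rw [prod_eq_zero hj (hβ j), mul_zero]) fun j hj y s => by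
          rw [update_of_ne (ne_of_mem_erase hj).symm, prod_congr rfl fun j' hj' => by
            rw [update_of_ne (by rintro rfl; exact (mem_sdiff.1 (mem_of_mem_erase hj)).2 hj')]]
      simp only [mul_assoc]
      rcases ((univ \ R).erase i).eq_empty_or_nonempty with k | ⟨j, hj⟩
      · have h3 := pred_card_le_card_erase (s := univ \ R) (a := i)
        have h4 := card_sd R
        rw [k, card_empty] at h3
        exact hm.Sg_zero h2.1 (by omega) _
      · exact hm.sig_line h h2 hj (ne_of_mem_erase hj) _ _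

theorem Mono.closure (h : G.Ok) (hm : G.Mono e Y c) (hb : ∀ y, b y ≠ 0 → y ∈ Y)
    (hx : Cl (2 ^ (n + 1)) b x) : G.Lf e (G.J2 x) x (Sg c 0 b) := by
  have hS : ∀ g, Sg c 0 b g = ∑ y, b y • c y g := fun g => by
    simp only [Sg_apply, pow_zero, one_smul]
  have hN : ∀ q : ℕ, q.Prime → q ≠ 2 → (q : ℤ) ∣ G.N → ∀ u : Zg n M → GQ → A,
      (∀ y ∈ Y, u y (sig q) = 0) → (∀ y ∈ Y, (G.t y).LocT q (c y - u y)) →
      (G.t x).LocT q (Sg c 0 b - ∑ y, b y • u y) := fun q hq h2 hN u hu hl => by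
    have h1 := hm.locN h x 0 hb hq h2 hN hu hl fun R r β hR hβ => by
      have := card_sd R
      exact hm.bs (fun j _ => hm.as h j) le_rfl (lam_cl hb hx (φ := id) rfl hβ (by omega))
        (by omega) _
    simpa only [Tw.it_zero, pow_zero, one_smul, smul_sub, sum_sub_distrib, Sg] using h1
  refine ⟨⟨fun g => ?_, fun g g' => ?_, hm.lc _ hb, fun v hv => ?_, fun v hv h2 hD hJ => ?_,
    fun v hv => ?_, fun p hp h2 hD => ?_⟩, funext fun g => ?_, fun q hq => ?_⟩
  · rw [← Sg_pow, hm.Sg_zero hb le_rfl]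
  · rw [hm.twist h x 0 hb, sum_eq_single ∅ (fun R _ hR => ?_) fun k => (k (mem_univ _)).elim]
    · simp [ur, Tw.it_zero, Sg_apply c 0 fun _ => 0]
    have h0 : 0 < R.card := card_pos.2 (nonempty_iff_ne_empty.2 hR)
    have h1 := card_sd R
    have h2 : ∀ i, uu (G.eta x g i (x i)) = 0 := fun i => by rw [h.eta_self, uu_one]
    have h5 : Lam Y (univ \ R) fun y => b y * (G.ur x g R y).re :=
      lam_cl hb hx (φ := Zsqrtd.re) rfl (β := fun i s => uu (G.eta x g i s)) h2 h0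
    have h6 : Lam Y (univ \ R) fun y => b y * (G.ur x g R y).im :=
      lam_cl hb hx (φ := Zsqrtd.im) rfl (β := fun i s => uu (G.eta x g i s)) h2 h0
    rw [hm.bs (fun j _ => hm.as h j) le_rfl h5 (by omega),
      hm.bs (fun j _ => hm.as h j) le_rfl h6 (by omega)]
    simp
  · simpa only [Tw.it_zero] using hm.loc h x 0 hb hv
  · have h1 := ((h.dvd_N hv x).1 hD).resolve_right fun ⟨j, hj⟩ => hJ (Or.inr ⟨j, hj.symm⟩)
    simpa using hN v hv h2 h1 0 (fun _ _ => rfl) fun y hy => by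
      rw [Pi.zero_apply, sub_zero]
      exact (hm.lf y hy).1.ram v hv h2 ((h.dvd_N hv y).2 (.inl h1)) fun k => hJ (Or.inl k)
  · rcases hv with hv | ⟨i, rfl⟩
    · choose! u u1 u2 u3 using fun y hy => (hm.lf y hy).1.rel v hv
      refine ⟨_, fun g => ?_, ?_, hN v (h.hJ v hv).1 (h.hJ v hv).2.1 (h.hJ v hv).2.2 u u2 u3⟩
      · simp only [Finset.sum_apply, Pi.smul_apply, smul_sum, smul_comm w]
        exact sum_zero hb fun y hy => u1 y hy g
      · simp only [Finset.sum_apply, Pi.smul_apply]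
        exact sum_zero hb u2
    · exact ⟨_, hm.defect h hb hx i⟩
  · rw [hS]
    by_cases hq : ∃ i s, p = G.pr i s
    · obtain ⟨i, s, rfl⟩ := hq
      obtain ⟨P, hP, h3⟩ := hm.sig_pr h i s
      obtain ⟨j, hj⟩ : ∃ j, j ≠ i := by
        by_cases k : ia = i
        · exact ⟨ic, by simp [← k]⟩
        · exact ⟨ia, k⟩
      rw [sum_supp hb h3, sum_cl (hx j) (fun y t => by rw [update_of_ne hj.symm])
        fun y => by split_ifs <;> simp only [two_pow_smul hP, smul_zero], if_neg]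
      exact fun k => hD ((h.dvd_N hp x).2 (Or.inr ⟨i, by rw [k]⟩))
    · exact sum_zero hb fun y hy => hm.sig_off h hy hp h2
        (fun k => hD ((h.dvd_N hp x).2 (Or.inl k))) fun i k => hq ⟨_, _, k⟩
  · rw [Pi.smul_apply, hS, smul_sum]
    simp only [smul_comm (w ^ n)]
    rw [sum_supp hb (v := fun y => w ^ n • c y g) (u := fun y => G.a y g) fun y hy =>
      congrFun (hm.lf y hy).2.1 g]
    exact sum_cl (hx (Sum.inl ⟨0, h.pos⟩)) (fun y s => by rw [h.a_update]) fun y =>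
      two_pow_smul (by rw [pow_succ, mul_smul, a, w_kum, smul_zero])
  · obtain ⟨y0, h0⟩ : ∃ y, b y ≠ 0 := by
      by_contra k
      have h1 := sum_cl (hx ia) (u := fun _ => (1 : F2)) (fun _ _ => rfl) fun _ => pow_F2 _ _
      rw [sum_eq_zero fun y _ => by rw [not_not.1 fun k' => k ⟨y, k'⟩, zero_smul]] at h1
      exact zero_ne_one h1
    rw [hS, smul_sum]
    simp only [smul_comm w]
    rw [sum_supp hb (u := fun _ => e q) fun y hy => (hm.lf y hy).2.2 q hq]
    refine sum_cl (hx ia) (u := fun _ => e q) (fun _ _ => rfl) fun _ => two_pow_smul ?_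
    rw [← (hm.lf y0 (hb y0 h0)).2.2 q hq, smul_comm, (hm.lf y0 (hb y0 h0)).1.tors, smul_zero]

theorem Mono.agree (h : G.Ok) (hm : G.Mono e Y c) (hb : ∀ y, b y ≠ 0 → y ∈ Y)
    (hx : Cl (2 ^ (n + 1)) b x) {c0 : GQ → A} (h0 : G.Lf e G.J x c0) :
    Agree (label G.pr G.f) b x := by
  obtain ⟨z1, -, z3⟩ := hm.closure h hb hx
  have z := z1.sub (h0.1.mono Set.subset_union_left (h.J2 x))
  have h2 := congrFun (Tw.detect (S := sig '' (G.Jev : Set ℕ))
    (fun j c hc k => h.det x (1 + j) c (Tw.it_it _ 1 j ▸ hc) fun q hq => k _ ⟨q, hq, rfl⟩)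
    z.wsmul (by
      rintro _ ⟨q, hq, rfl⟩
      rw [Pi.smul_apply, Pi.sub_apply, smul_sub, z3 q hq, h0.2.2 q hq, sub_self]))
  obtain ⟨d, s1, hc⟩ := z.kum h2
  obtain ⟨-, u2, u3⟩ := hm.defect h hb hx ic
  have hr : insert (G.pr ic (x ic)) (G.J2 x) = G.J2 x := Set.insert_eq_of_mem (Or.inr ⟨ic, rfl⟩)
  have hl := lam_off hb hx ic
  have h3 := Tw.recipU (J := G.J2 x) (r := G.pr ic (x ic)) s1.ne_zero (h.hb0 x)
    (by rw [hr]; exact h.J2 x) (by rw [hr]; exact h.U x)
    (by rw [hr, ← hc]; exact z.level fun g => by rw [pow_one]; exact h2 g) (h.hb x) (h.hbJ x) u2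
    (by
      have h4 := u3.add ((h0.1.ram _ (h.prime _ _) (h.ne_two _ _) ((h.dvd_N (h.prime _ _) x).2
        (Or.inr ⟨ic, rfl⟩)) (h.notJ _ _)).zsmul (-1))
      rwa [neg_one_zsmul, ← sub_eq_add_neg, sub_right_comm, hc] at h4)
    (hm.as h _ _ 0 (card_erase ic) rfl (notMem_erase _ _) _ hl _)
  rw [h.pair, mul_one, ph_pos (by simp)] at h3
  have h5 := sum_cl (hx ic) (u := fun y => Phi G.f univ y (frb (G.pr ic (x ic))))
    (fun y s => Phi_ic _ _ _ _) fun _ => pow_F2 _ _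
  have h6 : ({j | Sum.inl j ∈ (univ.erase ic : Finset (Sx n))} : Finset (Fin n)) = univ := by
    ext j
    simp
  rw [h6] at h3
  rw [Agree, label, ← h5, ← sub_zero (∑ y, b y • _), ← h3, ← sum_sub_distrib, sum_filter]
  refine sum_congr rfl fun y _ => ?_
  by_cases k : y ic = x ic <;> simp [off, label, k]

end Gd

theorem grid_main (n m : ℕ) : ∃ N : ℕ, ∀ (M : ℕ) (G : Gd n M) (e : ℕ → A) (ε : ℝ),
    G.Ok → G.J.card ≤ m → G.Jev.card ≤ m → Good (n + 1) N ε (label G.pr G.f) →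
    (({y | ∃ c, G.Lf e G.J y c} : Finset (Zg n M)).card : ℝ) ≤
      ({y | ∃ c, G.Lf e (G.J2 y) y c} : Finset (Zg n M)).card / 2 + N * ε * (M + 1) ^ (n + 2) := by
  let B := {P : A | w ^ (n + 1) • P = 0}
  have : Finite B := finite_tors (n + 1)
  let K := (Fin (3 * m + 2 * (n + 2)) → B × (Finset (Fin n) → F2)) × (Sx n → B)
  refine ⟨Nat.card K, fun M G e ε h hJ hev hg => ?_⟩
  have h1 : ∀ y, ∃ c : GQ → A, (∀ g, c g ∈ B) ∧
      ((∃ c, G.Lf e G.J y c) → G.Lf e G.J y c) := fun y => by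
    by_cases k : ∃ c, G.Lf e G.J y c
    · exact ⟨_, k.choose_spec.1.tors, fun _ => k.choose_spec⟩
    · exact ⟨0, fun _ => smul_zero _, fun k' => (k k').elim⟩
  choose c hB hc using h1
  have h2 : G.tests.card ≤ 3 * m + 2 * (n + 2) := by
    have a1 : (G.J ∪ univ.image fun i => G.pr i 0).card ≤ m + (n + 2) :=
      (card_union_le _ _).trans (add_le_add hJ (card_image_le.trans Sm.Gd.card_Sx.le))
    have a2 := (card_union_le _ _).trans (add_le_add ((card_union_le _ _).trans (add_le_add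
      ((card_image_le (f := sig)).trans a1) ((card_image_le (f := frb)).trans a1)))
      ((card_image_le (f := sig)).trans hev))
    rw [Gd.tests]
    omega
  let τ : Fin (3 * m + 2 * (n + 2)) → GQ := fun k => G.tests.toList.getD k 1
  have h3 : ∀ g ∈ G.tests, ∃ k, τ k = g := fun g hg => by
    obtain ⟨k, hk, rfl⟩ := List.getElem_of_mem (mem_toList.2 hg)
    exact ⟨⟨k, by rw [length_toList] at hk; omega⟩, List.getD_eq_getElem _ _ hk⟩
  let col : Zg n M → K := fun y => (fun k => (⟨c y (τ k), hB _ _⟩, fun T => Phi G.f T y (τ k)),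
    fun i => ⟨c y (sig (G.pr i (y i))), hB _ _⟩)
  refine half_of_good hg _ _ (fun y => Finite.equivFin K (col y)) fun k b x hb hx => ?_
  have h4 : ∀ y y', Finite.equivFin K (col y) = k → Finite.equivFin K (col y') = k →
      col y = col y' := fun y y' a1 a2 => (Finite.equivFin K).injective (a1.trans a2.symm)
  have hm : G.Mono e {y | (∃ c, G.Lf e G.J y c) ∧ Finite.equivFin K (col y) = k} c := by
    refine ⟨fun y hy => hc y hy.1, fun y hy y' hy' g hg => ?_, fun y hy y' hy' g hg T => ?_,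
      fun y hy y' hy' i => ?_⟩
    · obtain ⟨j, rfl⟩ := h3 g hg
      exact congrArg (fun t : K => (t.1 j).1.1) (h4 y y' hy.2 hy'.2)
    · obtain ⟨j, rfl⟩ := h3 g hg
      exact congrArg (fun t : K => (t.1 j).2 T) (h4 y y' hy.2 hy'.2)
    · exact congrArg (fun t : K => (t.2 i).1) (h4 y y' hy.2 hy'.2)
  have hb' : ∀ y, b y ≠ 0 → y ∈ {y | (∃ c, G.Lf e G.J y c) ∧ Finite.equivFin K (col y) = k} :=
    fun y hy => ⟨(mem_filter.1 (hb y hy).1).2, (hb y hy).2⟩
  exact ⟨mem_filter.2 ⟨mem_univ _, _, hm.closure h hb' hx⟩, fun h5 =>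
    hm.agree h hb' hx (mem_filter.1 h5).2.choose_spec⟩

end Pool.Agent.Lib.MP_696deb_nt.QK
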