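import Pool.Agent.Lib.MP_696deb_nt.QA.SelS
import Pool.Agent.Lib.MP_696deb_nt.Sm.Grid

/-! The grid lemma for odd powers of the varying primes: definitions. -/

set_option autoImplicit false

open scoped Classical
open Finset Function

namespace Pool.Agent.Lib.MP_696deb_nt.QK

open Sm Q4

theorem chi_odd {a : ℤ} (ha : a ≠ 0) (k : ℕ) (g : GQ) : chi (a ^ (2 * k + 1)) g = chi a g := by
  rw [chi_pow ha, ZMod.natCast_eq_one_iff_odd.2 (odd_two_mul_add_one k), one_mul]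

theorem zq_pow (ρ : Qb) (k : ℕ) (g : GQ) : zq (ρ ^ k) g = zq ρ g ^ k := by
  rw [zq, zq, map_pow, div_pow]

/-- The data of a grid of twists. -/
structure Gd (n M : ℕ) where
  pr : Sx n → Fin (M + 1) → ℕ
  r : Sx n → Fin (M + 1) → Qb
  t : Zg n M → Tw
  ρ : Qb
  N : ℤ
  Df : ℤ
  f : Fin (M + 1) → GQ → Gm n M → F2
  J : Finset ℕ
  Jev : Finset ℕ
  a1 : ℤ
  al : Sx n → F2
  b : Zg n M → ℤ
  κ : ℕ

namespace Gd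

variable {n M : ℕ} (G : Gd n M)

noncomputable def a (y : Zg n M) : GQ → A :=
  kum (G.a1 * ∏ i, (G.pr i (y i) : ℤ) ^ (G.al i).val)

/-- The primes at which the larger set is relaxed. -/
def J2 (y : Zg n M) : Set ℕ := (G.J : Set ℕ) ∪ Set.range fun i => G.pr i (y i)

/-- A lift of `a y` with prescribed values. -/
def Lf (e : ℕ → A) (J : Set ℕ) (y : Zg n M) (c : GQ → A) : Prop :=
  (G.t y).IsZ J (n + 1) c ∧ w ^ n • c = G.a y ∧ ∀ q ∈ G.Jev, w • c (sig q) = e q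

structure Ok : Prop where
  pos : 1 ≤ n
  prime : ∀ i s, (G.pr i s).Prime
  cop : ∀ i s, ¬ (G.pr i s : ℤ) ∣ 2 * G.N
  inj : ∀ i s i' s', G.pr i s = G.pr i' s' → i = i' ∧ s = s'
  hN : ∀ y, (G.t y).N = G.N * (∏ i, (G.pr i (y i) : ℤ)) ^ (2 * G.κ + 1)
  sq : ∀ y (q : ℕ), q.Prime → q ≠ 2 → (q : ℤ) ∣ (G.t y).N → (G.t y).U q ∨
    q ∉ G.J2 y ∧ ∀ i s s', ∀ g ∈ Gv q, zq (G.r i s) g = zq (G.r i s') g
  hr : ∀ i s, G.r i s ^ 4 = (((G.pr i s : ℤ) ^ (2 * G.κ + 1) : ℤ) : Qb)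
  hρ : ∀ y, (G.t y).ρ = G.ρ * ∏ i, G.r i (y i)
  inf : ∀ i s s' (v : ℕ), v = 0 ∨ v = 2 → ∀ g ∈ Gv v, zq (G.r i s) g = zq (G.r i s') g
  fix : ∀ i s s' (q : ℕ), q.Prime → (q : ℤ) ∣ G.N →
    ∀ g ∈ Gv q, chi ((G.pr i s : ℤ) * G.pr i s') g = 0
  cross : ∀ i s s' i' u, i' ≠ i → ∀ g ∈ Gv (G.pr i' u), chi ((G.pr i s : ℤ) * G.pr i s') g = 0
  kit : FKit G.pr G.Df G.f
  dv : ∀ q : ℕ, q.Prime → (q : ℤ) ∣ G.N → (q : ℤ) ∣ 30 * G.Df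
  hJ : ∀ q ∈ G.J, q.Prime ∧ q ≠ 2 ∧ (q : ℤ) ∣ G.N
  ha1 : ∀ i s, ¬ (G.pr i s : ℤ) ∣ G.a1
  hU : ∀ j, G.al (Sum.inl j) = 0
  ha : G.al ia = 1
  det : ∀ y k c, ((G.t y).it k).IsZ ∅ 1 c → (∀ q ∈ G.Jev, c (sig q) = 0) → c = 0
  hb0 : ∀ y, G.b y ≠ 0
  hb : ∀ y, ((G.t y).it 1).IsZ ∅ 1 (kum (G.b y))
  hbJ : ∀ y, ∀ q ∈ G.J2 y, q ≠ G.pr ic (y ic) → chi (G.b y) (sig q) = 0
  pair : ∀ y, chi (G.b y) (sig (G.pr ic (y ic))) = 1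

end Gd

end Pool.Agent.Lib.MP_696deb_nt.QK
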