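import Pool.Agent.Lib.MP_696deb_nt.QK.GridA

/-! The grid lemma: the twisting identity and the local conditions of weighted sums. -/

set_option autoImplicit false

open scoped Classical
open Finset Function

namespace Pool.Agent.Lib.MP_696deb_nt.QK

open Sm Q4
open Sm.Gd (sum_supp sum_zero sum_mono sum_cl Lam pow_F2)

namespace Gd

variable {n M : ℕ} (G : Gd n M)

/-- The elements at which a colour is read off. -/
noncomputable def tests : Finset GQ :=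
  ((G.J ∪ univ.image fun i => G.pr i 0).image sig ∪ (G.J ∪ univ.image fun i => G.pr i 0).image frb) ∪
    G.Jev.image sig

/-- A set of grid points with lifts that all have the same colour. -/
structure Mono (e : ℕ → A) (Y : Set (Zg n M)) (c : Zg n M → GQ → A) : Prop where
  lf : ∀ y ∈ Y, G.Lf e G.J y (c y)
  val : ∀ y ∈ Y, ∀ y' ∈ Y, ∀ g ∈ G.tests, c y g = c y' g
  phi : ∀ y ∈ Y, ∀ y' ∈ Y, ∀ g ∈ G.tests, ∀ T, Phi G.f T y g = Phi G.f T y' g
  ram : ∀ y ∈ Y, ∀ y' ∈ Y, ∀ i, c y (sig (G.pr i (y i))) = c y' (sig (G.pr i (y' i)))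

/-- The weighted sum of the lifts at depth `k`. -/
noncomputable def Sg (c : Zg n M → GQ → A) (k : ℕ) (a : Zg n M → ℤ) : GQ → A :=
  ∑ y, a y • (w ^ k • c y)

/-- The weighted sum of the vertex functions of the expansion. -/
noncomputable def ph (T : Finset (Sx n)) (a : Zg n M → ℤ) (g : GQ) : F2 :=
  if ia ∈ T then ∑ y, (a y : F2) * Phi G.f {j | Sum.inl j ∈ T} y g else 0

/-- The root of unity by which two twists differ in direction `i`. -/
noncomputable def eta (x : Zg n M) (g : GQ) (i : Sx n) (s : Fin (M + 1)) : Qb :=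
  zq (G.r i s) g / zq (G.r i (x i)) g

/-- The coefficient of the twisting identity. -/
noncomputable def ur (x : Zg n M) (g : GQ) (R : Finset (Sx n)) (y : Zg n M) : O :=
  ∏ i ∈ R, uu (G.eta x g i (y i))

variable {G} {e : ℕ → A} {Y : Set (Zg n M)} {c : Zg n M → GQ → A}

theorem Ok.pr_ne (h : G.Ok) (i : Sx n) (s : Fin (M + 1)) : (G.pr i s : ℤ) ≠ 0 := by
  exact_mod_cast (h.prime i s).ne_zero

theorem Ok.dvd_N (h : G.Ok) {p : ℕ} (hp : p.Prime) (y : Zg n M) :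
    (p : ℤ) ∣ (G.t y).N ↔ (p : ℤ) ∣ G.N ∨ ∃ i, p = G.pr i (y i) := by
  have hp' : Prime (p : ℤ) := Nat.prime_iff_prime_int.1 hp
  rw [h.hN, hp'.dvd_mul, hp'.dvd_pow_iff_dvd (Nat.succ_ne_zero _), hp'.dvd_finsetProd_iff]
  refine or_congr_right ⟨fun ⟨i, _, hi⟩ => ⟨i, ?_⟩, fun ⟨i, hi⟩ => ⟨i, mem_univ _, hi ▸ dvd_rfl⟩⟩
  exact (Nat.prime_dvd_prime_iff_eq hp (h.prime _ _)).1 (Int.natCast_dvd_natCast.1 hi)

theorem Ok.ne_two (h : G.Ok) (i : Sx n) (s : Fin (M + 1)) : G.pr i s ≠ 2 := fun k =>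
  h.cop i s (by rw [k]; exact dvd_mul_right _ _)

theorem Ok.ndvd (h : G.Ok) (i : Sx n) (s : Fin (M + 1)) : ¬ (G.pr i s : ℤ) ∣ G.N := fun k =>
  h.cop i s (dvd_mul_of_dvd_right k _)

theorem Ok.notJ (h : G.Ok) (i : Sx n) (s : Fin (M + 1)) : G.pr i s ∉ (G.J : Set ℕ) := fun k =>
  h.ndvd i s (h.hJ _ k).2.2

theorem Ok.J2 (h : G.Ok) (y : Zg n M) :
    ∀ q ∈ G.J2 y, q.Prime ∧ q ≠ 2 ∧ (q : ℤ) ∣ (G.t y).N := by
  rintro q (hq | ⟨i, rfl⟩)
  · exact ⟨(h.hJ q hq).1, (h.hJ q hq).2.1, (h.dvd_N (h.hJ q hq).1 y).2 (.inl (h.hJ q hq).2.2)⟩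
  · exact ⟨h.prime _ _, h.ne_two _ _, (h.dvd_N (h.prime _ _) y).2 (.inr ⟨i, rfl⟩)⟩

theorem Ok.U (h : G.Ok) (y : Zg n M) : ∀ q ∈ G.J2 y, (G.t y).U q := fun q hq =>
  (h.sq y q (h.J2 y q hq).1 (h.J2 y q hq).2.1 (h.J2 y q hq).2.2).resolve_right fun k => k.1 hq

theorem Ok.pr_dvd (h : G.Ok) {i j : Sx n} {s u : Fin (M + 1)} (k : (G.pr i s : ℤ) ∣ G.pr j u) :
    i = j ∧ s = u :=
  h.inj _ _ _ _ ((Nat.prime_dvd_prime_iff_eq (h.prime _ _) (h.prime _ _)).1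
    (Int.natCast_dvd_natCast.1 k))

theorem Ok.a_sig (h : G.Ok) (y : Zg n M) (i : Sx n) :
    G.a y (sig (G.pr i (y i))) = kT (G.al i) := by
  have ha := h.ha1 i (y i)
  have a0 : G.a1 ≠ 0 := fun k => ha (k ▸ dvd_zero _)
  rw [a, kum, chi_mul a0 (prod_ne_zero_iff.2 fun j _ => pow_ne_zero _ (h.pr_ne _ _)),
    chi_prod _ _ fun j _ => pow_ne_zero _ (h.pr_ne _ _),
    chi_sig_of_not_dvd (h.prime _ _) (h.ne_two _ _) ha, zero_add, sum_eq_single i]
  · rw [chi_pow_val (h.pr_ne _ _), chi_sig_self (h.prime _ _) (h.ne_two _ _), mul_one]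
  · intro j _ hj
    rw [chi_pow_val (h.pr_ne _ _), chi_sig_of_not_dvd (h.prime _ _) (h.ne_two _ _), mul_zero]
    exact fun k => hj (h.pr_dvd k).1.symm
  · exact fun k => (k (mem_univ _)).elim

theorem Ok.a_update (h : G.Ok) (y : Zg n M) (j : Fin n) (s : Fin (M + 1)) :
    G.a (update y (Sum.inl j) s) = G.a y := by
  rw [a, a, prod_congr rfl fun i _ => ?_]
  by_cases hi : i = Sum.inl j
  · rw [hi, h.hU, ZMod.val_zero, pow_zero, pow_zero]
  · rw [update_of_ne hi]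

theorem Ok.r_four (h : G.Ok) (i : Sx n) (s : Fin (M + 1)) (g : GQ) : zq (G.r i s) g ^ 4 = 1 :=
  zq_four (pow_ne_zero _ (h.pr_ne i s)) (h.hr i s) g

theorem Ok.r_ne (h : G.Ok) (i : Sx n) (s : Fin (M + 1)) (g : GQ) : zq (G.r i s) g ≠ 0 := fun k => by
  simpa [k] using h.r_four i s g

theorem Ok.eta_four (h : G.Ok) (x : Zg n M) (g : GQ) (i : Sx n) (s : Fin (M + 1)) :
    G.eta x g i s ^ 4 = 1 := by
  rw [eta, div_pow, h.r_four, h.r_four, div_one]

theorem Ok.eta_self (h : G.Ok) (x : Zg n M) (g : GQ) (i : Sx n) : G.eta x g i (x i) = 1 :=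
  div_self (h.r_ne _ _ _)

theorem Ok.eta_sq (h : G.Ok) (x : Zg n M) (g : GQ) (i : Sx n) (s : Fin (M + 1)) :
    G.eta x g i s * G.eta x g i s = (sn (chi ((G.pr i (x i) : ℤ) * G.pr i s) g) : Qb) := by
  rw [eta, div_mul_div_comm, zq_sq (pow_ne_zero _ (h.pr_ne _ _)) (h.hr _ _),
    zq_sq (pow_ne_zero _ (h.pr_ne _ _)) (h.hr _ _), chi_odd (h.pr_ne _ _), chi_odd (h.pr_ne _ _),
    chi_mul (h.pr_ne _ _) (h.pr_ne _ _), sn_add]
  rcases F2_cases (chi (G.pr i (x i)) g) with k | k <;> simp [k, sn_zero, sn_one, div_neg]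

theorem Ok.zq_t (h : G.Ok) (x y : Zg n M) (g : GQ) :
    zq (G.t y).ρ g = (∏ i, G.eta x g i (y i)) * zq (G.t x).ρ g := by
  have := prod_ne_zero_iff.2 fun i (_ : i ∈ univ) => h.r_ne i (x i) g
  simp only [h.hρ, zq_mul, zq_prod, eta, prod_div_distrib]
  field_simp

theorem Ok.tw_t (h : G.Ok) (x y : Zg n M) (g : GQ) (P : A) :
    (G.t y).tw g P = (∏ i, un (G.eta x g i (y i))) • (G.t x).tw g P := by
  rw [Tw.tw_rel ?_ (h.zq_t x y g), un_prod _ fun i _ => h.eta_four _ _ _ _]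
  rw [← prod_pow, prod_eq_one fun i _ => h.eta_four _ _ _ _]

theorem Sg_apply (c : Zg n M → GQ → A) (k : ℕ) (a : Zg n M → ℤ) (g : GQ) :
    Sg c k a g = ∑ y, a y • w ^ k • c y g := by
  simp only [Sg, Finset.sum_apply, Pi.smul_apply]

theorem Mono.tors (hm : G.Mono e Y c) {y : Zg n M} (hy : y ∈ Y) (k : ℕ) (g : GQ) :
    2 ^ (n + 1) • w ^ k • c y g = 0 :=
  two_pow_smul (by rw [smul_comm, (hm.lf y hy).1.tors, smul_zero])

theorem Sg_pow (c : Zg n M → GQ → A) (j k : ℕ) (a : Zg n M → ℤ) (g : GQ) :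
    Sg c (j + k) a g = w ^ j • Sg c k a g := by
  rw [Sg_apply, Sg_apply, smul_sum]
  exact sum_congr rfl fun y _ => by rw [smul_comm (w ^ j), smul_smul (w ^ j), ← pow_add]

theorem Mono.Sg_zero (hm : G.Mono e Y c) {a : Zg n M → ℤ} (ha : ∀ y, a y ≠ 0 → y ∈ Y) {k : ℕ}
    (hk : n + 1 ≤ k) (g : GQ) : Sg c k a g = 0 := by
  obtain ⟨j, rfl⟩ := Nat.exists_eq_add_of_le' hk
  rw [Sg_pow, Sg_apply, sum_zero ha fun y hy => (hm.lf y hy).1.tors g, smul_zero]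

theorem Mono.lc (hm : G.Mono e Y c) (k : ℕ) {a : Zg n M → ℤ} (ha : ∀ y, a y ≠ 0 → y ∈ Y) :
    LC (Sg c k a) := by
  refine lc_sum _ fun y _ => ?_
  by_cases h0 : a y = 0
  · rw [h0, zero_smul]
    exact B2.Sm.const 0
  · exact (hm.lf y (ha y h0)).1.lc.comp fun P => a y • w ^ k • P

/-- The twisting identity. -/
theorem Mono.twist (h : G.Ok) (hm : G.Mono e Y c) (x : Zg n M) (k : ℕ)
    {a : Zg n M → ℤ} (ha : ∀ y, a y ≠ 0 → y ∈ Y) (g g' : GQ) :
    Sg c k a (g * g') = Sg c k a g + ∑ R : Finset (Sx n),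
      (((G.t x).it (k + R.card)).tw g (Sg c (k + R.card) (fun y => a y * (G.ur x g R y).re) g') +
      ii • ((G.t x).it (k + R.card)).tw g
        (Sg c (k + R.card) (fun y => a y * (G.ur x g R y).im) g')) := by
  simp only [Sg_apply, map_sum, smul_sum, ← sum_add_distrib]
  rw [sum_comm, ← sum_add_distrib]
  refine sum_congr rfl fun y _ => ?_
  by_cases h0 : a y = 0
  · simp [h0]
  rw [(hm.lf y (ha y h0)).1.coc, smul_add, smul_add, h.tw_t x y]
  simp only [un_eq, prod_one_add, powerset_univ, sum_smul, smul_sum, prod_mul_distrib, prod_const]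
  congr 1
  refine sum_congr rfl fun R _ => ?_
  rw [map_zsmul, map_zsmul, ← Tw.w_tw, smul_comm ii, mul_smul (a y), mul_smul (a y), ← smul_add,
    ii_smul, ← smul_def, smul_smul (w ^ k), smul_smul (G.ur x g R y), ur, pow_add]
  congr 2
  ring

/-- Weighted sums of coboundaries at a prime where the twists differ by signs. -/
theorem Mono.locq (h : G.Ok) (hm : G.Mono e Y c) (x : Zg n M) (k : ℕ) {a : Zg n M → ℤ}
    {Y' : Set (Zg n M)} (hY : Y' ⊆ Y) (ha : ∀ y, a y ≠ 0 → y ∈ Y') {q : ℕ} (hq : q.Prime)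
    (h2 : q ≠ 2) (hN : (G.t x).U q)
    (h1 : ∀ y ∈ Y', ∀ i, y i = x i ∨ (¬ (q : ℤ) ∣ G.pr i (y i) ∧ ¬ (q : ℤ) ∣ G.pr i (x i) ∧
      ∀ g ∈ Gv q, chi ((G.pr i (x i) : ℤ) * G.pr i (y i)) g = 0))
    {u : Zg n M → GQ → A} (hu : ∀ y ∈ Y', u y (sig q) = 0)
    (hl : ∀ y ∈ Y', (G.t y).LocT q (c y - u y))
    (hz : ∀ (R : Finset (Sx n)) (r : ℕ) (β : Sx n → Fin (M + 1) → ℤ), R.card = r + 1 →
      (∀ i, β i (x i) = 0) → Sg c (k + 2 * r + 1) (fun y => a y * ∏ i ∈ R, β i (y i)) (sig q) = 0) :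
    ((G.t x).it k).LocT q (∑ y, a y • (w ^ k • (c y - u y))) := by
  choose! Q hQ1 hQ using hl
  have hμ := hN.unit
  set μ := uu (zq (G.t x).ρ (sig q))
  have hs : ∀ y ∈ Y', c y (sig q) = μ • w • Q y := fun y hy => by
    obtain ⟨j, hj⟩ := hQ1 y hy
    have k1 := hQ y hy _ (sig_mem hq h2)
    rw [Pi.sub_apply, hu y hy, sub_zero, Tw.cob_sig _ hq h2 hj, h.zq_t x y,
      prod_eq_one fun i _ => ?_, one_mul] at k1
    · exact k1
    rcases h1 y hy i with k2 | k2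
    · rw [k2, h.eta_self]
    · have hP := Nat.prime_iff_prime_int.1 hq
      rw [eta, zq_ine hq h2 (h.hr _ _) (mt hP.dvd_of_dvd_pow k2.1) _ (sig_ine hq h2),
        zq_ine hq h2 (h.hr _ _) (mt hP.dvd_of_dvd_pow k2.2.1) _ (sig_ine hq h2), div_one]
  refine ⟨∑ y, a y • w ^ k • Q y, ⟨n + 2, ?_⟩, fun g hg => ?_⟩
  · rw [smul_sum]
    simp only [smul_comm (w ^ (n + 2))]
    refine sum_zero ha fun y hy => ?_
    have k1 := (hm.lf y (hY hy)).1.tors (sig q)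
    rw [hs y hy, smul_comm, hμ.smul_eq_zero, smul_smul, ← pow_succ] at k1
    rw [k1, smul_zero]
  let β : Sx n → Fin (M + 1) → ℤ := fun i s => if G.eta x g i s = 1 then 0 else 1
  have hβ : ∀ y ∈ Y', ∀ i, un (G.eta x g i (y i)) = 1 + -2 * (β i (y i) : O) := fun y hy i => by
    by_cases k1 : G.eta x g i (y i) = 1
    · simp [β, k1, un_one]
    have k2 := h.eta_sq x g i (y i)
    rw [((h1 y hy i).resolve_left fun k3 => k1 (by rw [k3, h.eta_self])).2.2 g hg, sn_zero,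
      Int.cast_one, mul_self_eq_one_iff] at k2
    have k3 := un_sn 1
    rw [sn_one, Int.cast_neg, Int.cast_one] at k3
    rw [k2.resolve_left k1, k3]
    simp only [β, if_neg k1]
    norm_num
  have key : ∑ y, a y • w ^ k • (G.t y).tw g (Q y) = ∑ R : Finset (Sx n), ((G.t x).it k).tw g
      ((-2 : ℤ) ^ R.card • ∑ y, (a y * ∏ i ∈ R, β i (y i)) • w ^ k • Q y) := by
    simp only [map_zsmul, map_sum, smul_sum]
    rw [sum_comm, sum_supp ha (u := fun y => ∑ R : Finset (Sx n), ((-2 : ℤ) ^ R.card *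
      ∏ i ∈ R, β i (y i)) • ((G.t x).it k).tw g (w ^ k • Q y)) fun y hy => ?_]
    · refine sum_congr rfl fun y _ => ?_
      rw [smul_sum]
      refine sum_congr rfl fun R _ => ?_
      rw [smul_smul, smul_smul, mul_left_comm]
    · rw [h.tw_t x y, smul_comm, Tw.w_tw]
      simp only [hβ y hy, prod_one_add, powerset_univ, sum_smul, prod_mul_distrib, prod_const]
      refine sum_congr rfl fun R _ => ?_
      rw [← Int.cast_smul_eq_zsmul O]
      push_cast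
      rfl
  rw [Finset.sum_apply]
  simp only [Pi.smul_apply]
  rw [sum_supp ha (u := fun y => w ^ k • (G.t y).tw g (Q y) - w ^ k • Q y) fun y hy => by
    rw [hQ y hy g hg, Tw.cob, smul_sub]]
  simp only [smul_sub, sum_sub_distrib]
  rw [key, sum_eq_single ∅ (fun R _ hR => ?_) fun k => (k (mem_univ _)).elim, Tw.cob]
  · simp
  obtain ⟨r, hr⟩ := Nat.exists_eq_add_one.2 (card_pos.2 (nonempty_iff_ne_empty.2 hR))
  have k1 := hz R r β hr fun i => if_pos (h.eta_self _ _ _)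
  rw [Sg_apply, sum_supp (fun y hy => ha y (left_ne_zero_of_mul hy))
    (u := fun y => (μ * w ^ (2 * (r + 1))) • w ^ k • Q y) fun y hy => by
      rw [hs y hy, smul_smul, smul_smul, smul_smul]; congr 1; ring] at k1
  simp only [smul_comm _ (μ * w ^ (2 * (r + 1)))] at k1
  rw [← smul_sum, mul_smul, hμ.smul_eq_zero] at k1
  rw [← Int.cast_smul_eq_zsmul O, hr, show (((-2 : ℤ) ^ (r + 1) : ℤ) : O) =
    ii ^ (r + 1) * w ^ (2 * (r + 1)) by
      rw [pow_mul, ← mul_pow, Int.cast_pow]; congr 1, mul_smul, k1, smul_zero, map_zero]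

end Gd

end Pool.Agent.Lib.MP_696deb_nt.QK
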