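import Pool.Agent.Lib.MP_696deb_nt.Q4.Pat
import Pool.Agent.Lib.MP_696deb_nt.QK.GridA
import Pool.Agent.Lib.MP_696deb_nt.QA.Bx

/-! The Selmer groups of level one in terms of patterns. -/

set_option autoImplicit false

open scoped Classical
open Finset Function

namespace Pool.Agent.Lib.MP_696deb_nt.QK

/-- A box with an additional factor and an odd exponent. -/
structure KB extends QA.EB where
  κ : ℕ

namespace KB

open Sm Q4
open Sm.Box (DD dD pat lam mem_fib mem_pts pata_ne val)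
open QA.EB (PE_inr exists_Jev exists_dirs)

variable (B : KB)

structure Wf : Prop extends toE : B.toEB.Wf

structure Hyp (c : ℕ) : Prop extends toE : B.toEB.Hyp c

theorem Hyp.wf {B : KB} {c : ℕ} (h : B.Hyp c) : B.Wf := ⟨h.toE.wf⟩

theorem Hyp.mono {B : KB} {c c' : ℕ} (h : B.Hyp c') (hc : c ≤ c') : B.Hyp c := ⟨h.toE.mono hc⟩

/-- The twist attached to a point of a box. -/
noncomputable def qT (x : Fin B.r → ℕ) : Tw :=
  if h : B.e * B.DD x ^ (2 * B.κ + 1) = 0 then ⟨1, 1, one_ne_zero, by simp⟩ else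
    ⟨q4 (B.e * B.D0 ^ (2 * B.κ + 1)) * ∏ j, q4 (x j) ^ (2 * B.κ + 1),
      B.e * B.DD x ^ (2 * B.κ + 1), h, by
      rw [mul_pow, ← prod_pow, q4_pow, DD, mul_pow, ← mul_assoc, ← prod_pow]
      simp only [pow_right_comm _ (2 * B.κ + 1) 4, q4_pow]
      push_cast
      rfl⟩

/-- The fourth roots of the primes of a set look alike at the primes of `2 e`. -/
def Rf : Prop := ∀ j, ∀ p ∈ B.X j, ∀ p' ∈ B.X j, ∀ v : ℕ, v.Prime → v ∣ 2 * B.e →
  ∀ g ∈ Gv v, zq (q4 p) g = zq (q4 p') g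

/-- The class with a given pattern. -/
noncomputable def qc (x : Fin B.r → ℕ) (P : B.Pat) : GQ → A := kum (B.val x P)

/-- The patterns of Selmer classes on the side `j`. -/
noncomputable def qS (j : ℕ) (a : B.Mat) : Finset B.Pat :=
  {P | ∀ x ∈ B.fib a, ((B.qT x).it j).IsZ ∅ 1 (B.qc x P)}

/-- The conditions at the primes of the twist on the side `j`. -/
def qR (j : ℕ) (a : B.Mat) (P : B.Pat) : Prop :=
  B.RelE a (if Even j then (P, 0) else (0, P))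

/-- The pattern of the torsion class. -/
noncomputable def qt (j : ℕ) : B.Pat := B.dD + B.pat B.e + (j : F2) • B.pat (-1)

/-- The set `Jev` detects the Selmer patterns of both sides. -/
def qD (a : B.Mat) (Jev : Finset (Fin B.r)) : Prop :=
  ∀ j, ∀ Q ∈ B.qS j a, (∀ i ∈ Jev, Q (.inr i) = 0) → Q = 0

variable {B} {a : B.Mat} {x : Fin B.r → ℕ} {P P' : B.Pat} {j K : ℕ}

theorem Wf.N_ne (h : B.Wf) (hx : x ∈ B.pts) : (B.e : ℤ) * B.DD x ^ (2 * B.κ + 1) ≠ 0 :=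
  mul_ne_zero (Int.natCast_ne_zero.2 h.ed.1) (pow_ne_zero _ (h.DD_sqf hx).ne_zero)

theorem Wf.qT_N (h : B.Wf) (hx : x ∈ B.pts) : (B.qT x).N = B.e * B.DD x ^ (2 * B.κ + 1) := by
  rw [qT, dif_neg (h.N_ne hx)]

theorem Wf.qT_ρ (h : B.Wf) (hx : x ∈ B.pts) :
    (B.qT x).ρ = q4 (B.e * B.D0 ^ (2 * B.κ + 1)) * ∏ j, q4 (x j) ^ (2 * B.κ + 1) := by
  rw [qT, dif_neg (h.N_ne hx)]

theorem Wf.qT_dvd (h : B.Wf) (hx : x ∈ B.pts) {q : ℕ} (hq : q.Prime) :
    (q : ℤ) ∣ (B.qT x).N ↔ (q : ℤ) ∣ B.DD x := by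
  rw [h.qT_N hx]
  exact ⟨fun k => ((Nat.prime_iff_prime_int.1 hq).dvd_or_dvd k).elim (fun k =>
    (h.ed.2 q hq (Int.natCast_dvd_natCast.1 k)).mul_right _)
    (Nat.prime_iff_prime_int.1 hq).dvd_of_dvd_pow,
    fun k => (k.trans (dvd_pow_self _ (Nat.succ_ne_zero _))).mul_left _⟩

theorem Wf.qT_chi (h : B.Wf) (hx : x ∈ B.pts) (g : GQ) :
    chi (B.qT x).N g = chi B.e g + chi (B.DD x) g := by
  rw [h.qT_N hx, chi_mul (Int.natCast_ne_zero.2 h.ed.1) (pow_ne_zero _ (h.DD_sqf hx).ne_zero),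
    chi_odd (h.DD_sqf hx).ne_zero]

theorem Wf.qT_U (h : B.Wf) (hx : x ∈ B.pts) {q : ℕ} (hq : q.Prime) (h2 : q ≠ 2) (he : ¬ q ∣ B.e)
    (k : (q : ℤ) ∣ B.DD x) (j : ℕ) : ((B.qT x).it j).U q := by
  refine Tw.U.it ?_ hq h2 j
  rw [Tw.U, h.qT_chi hx, chi_sig_of_not_dvd hq h2 (mt Int.natCast_dvd_natCast.1 he), zero_add,
    chi_sig hq h2 (h.DD_sqf hx).ne_zero, padicValInt, ← Nat.factorization_def _ hq,
    Nat.factorization_eq_one_of_squarefree (Int.squarefree_natAbs.2 (h.DD_sqf hx)) hq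
      (Int.natCast_dvd.1 k), Nat.cast_one]

theorem Wf.ndvd_e (h : B.Wf) {i : Fin B.r} {p : ℕ} (hp : p ∈ B.X i) : ¬ p ∣ B.e := fun k =>
  h.cop i p hp ((h.ed.2 p (h.prime i p hp) k).mul_left _)

theorem Wf.PE_ndvd (h : B.Wf) (hx : x ∈ B.pts) {k : B.Ix} (hk : B.PE k) : ¬ B.prm x k ∣ B.e := by
  rcases k with g | i
  · obtain ⟨⟨q, rfl, -⟩, h2⟩ := hk
    exact h2 q rfl
  · exact h.ndvd_e (mem_pts.1 hx i)

theorem Wf.chi_e (h : B.Wf) (hx : x ∈ B.pts) (g : GQ) :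
    chi (B.val x (B.pat B.e)) g = chi B.e g := by
  rw [pat, h.pata_val hx, pata_chi (Int.natCast_ne_zero.2 h.ed.1) B.Q0
    (fun p k => (h.pata_Q0.1 k).1) fun p p1 p2 =>
    h.pata_Q0.2 ⟨p1, (h.ed.2 p p1 (Int.natCast_dvd_natCast.1 p2)).mul_left _⟩]
  simp

/-- The twists of a box look alike at the real place and at the primes of `2 e`. -/
theorem Wf.zq_eq (h : B.Wf) (hr : B.Rf) {y : Fin B.r → ℕ} (hx : x ∈ B.pts) (hy : y ∈ B.pts)
    {v : ℕ} (hv : v = 0 ∨ v.Prime ∧ v ∣ 2 * B.e) (j : ℕ) :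
    ∀ g ∈ Gv v, zq ((B.qT y).it j).ρ g = zq ((B.qT x).it j).ρ g := fun g hg => by
  change zq ((B.qT y).ρ * _) g = zq ((B.qT x).ρ * _) g
  rw [h.qT_ρ hx, h.qT_ρ hy, zq_mul, zq_mul, zq_mul, zq_mul, zq_prod, zq_prod]
  refine congrArg (fun u => _ * u * _) (prod_congr rfl fun i _ => ?_)
  rw [zq_pow, zq_pow]
  refine congrArg (· ^ _) ?_
  rcases hv with rfl | hv
  · rw [zq_q4_zero (Int.natCast_pos.2 (h.prime i _ (mem_pts.1 hx i)).pos) g hg,
      zq_q4_zero (Int.natCast_pos.2 (h.prime i _ (mem_pts.1 hy i)).pos) g hg]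
  · exact hr i _ (mem_pts.1 hy i) _ (mem_pts.1 hx i) v hv.1 hv.2 g hg

theorem qt_inr (j : ℕ) (i : Fin B.r) : B.qt j (.inr i) = 1 := by
  simp [qt, dD, pat]

theorem Wf.qc_add (h : B.Wf) (hx : x ∈ B.pts) (P P' : B.Pat) :
    B.qc x (P + P') = B.qc x P + B.qc x P' := by
  funext g
  simp only [qc, kum, Pi.add_apply, h.chi_val_add hx, map_add]

theorem Wf.qc_inj (h : B.Wf) (hx : x ∈ B.pts) : Injective (B.qc x) := by
  intro P P' e
  exact funext fun i => patb_eq.1 (congrFun (h.chi_val_inj hx (A := P + P') fun g => by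
    rw [h.chi_val_add hx, patb_eq]; exact kT_inj (congrFun e g)) i)

theorem Wf.qc_zero (h : B.Wf) (hx : x ∈ B.pts) : B.qc x 0 = 0 := by
  have := h.qc_add hx 0 0
  rwa [add_zero, left_eq_add] at this

theorem Wf.pat_chi (h : B.Wf) (hx : x ∈ B.pts) (j : ℕ) (g : GQ) :
    chi (B.val x (B.qt j)) g = chi ((B.qT x).it j).N g := by
  rw [qt, h.chi_val_add hx, h.chi_val_add hx, h.chi_val_smul hx, h.chi_dD hx, h.chi_e hx, Tw.chi_it,
    h.qT_chi hx, add_comm (chi _ g),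
    h.chi_pat hx (c := -1) (by norm_num) fun p hp k => (not_dvd_of_natAbs_eq' hp k).elim]

theorem Wf.qc_qt (h : B.Wf) (hx : x ∈ B.pts) (j : ℕ) (b : F2) :
    B.qc x (b • B.qt j) = fun g => kT (b * chi ((B.qT x).it j).N g) := by
  funext g
  rw [qc, kum, h.chi_val_smul hx, h.pat_chi hx]

theorem Wf.qc_sig (h : B.Wf) (hx : x ∈ B.pts) (P : B.Pat) (i : Fin B.r) :
    B.qc x P (sig (x i)) = kT (P (.inr i)) := by
  exact congrArg kT (h.chi_val_sig hx (k := .inr i) trivial P)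

theorem Wf.exists_qc (h : B.Wf) (hx : x ∈ B.pts) {c : GQ → A}
    (hc : ((B.qT x).it j).IsZ ∅ 1 c) : ∃ P, c = B.qc x P := by
  obtain ⟨d, d1, d2, rfl⟩ := Tw.exists_dvd hc
  obtain ⟨P, hP⟩ := h.exists_pat hx d1.ne_zero fun p hp k => by
    rcases eq_or_ne p 2 with rfl | e
    · exact Dvd.dvd.mul_right (by norm_num) _
    · have p1 := Nat.prime_iff_prime_int.1 hp
      rcases p1.dvd_or_dvd (d2 p hp k) with k | k
      · exact (e ((Nat.prime_dvd_prime_iff_eq hp Nat.prime_two).1 (by exact_mod_cast k))).elim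
      · rw [Tw.dvd_it _ hp e, h.qT_dvd hx hp] at k
        exact k.mul_left _
  exact ⟨P, funext fun g => by rw [qc, kum, kum, hP]⟩

theorem pat_qR : B.qR j a P ↔ ∀ k, B.PE k → B.lam a k (P + P k • B.qt j) = 0 := by
  have h0 : ∀ k, B.lam a k 0 = 0 := fun k => by simp [lam]
  unfold qR qt
  refine forall₂_congr fun k _ => ?_
  split_ifs with e
  · rw [ZMod.natCast_eq_zero_iff_even.2 e]
    simp only [Pi.zero_apply, zero_smul, add_zero, h0, and_true]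
  · rw [ZMod.natCast_eq_one_iff_odd.2 (Nat.not_even_iff_odd.1 e)]
    simp only [Pi.zero_apply, zero_smul, add_zero, h0, true_and, one_smul]

/-- The local condition at a prime of the twist. -/
theorem Wf.pat_loc (h : B.Wf) (hx : x ∈ B.fib a) {k : B.Ix} (hk' : B.PE k) (j : ℕ) (P : B.Pat) :
    ((B.qT x).it j).LocT (B.prm x k) (B.qc x P) ↔ B.lam a k (P + P k • B.qt j) = 0 := by
  have hx' := (mem_fib.1 hx).1
  have hk := hk'.1
  obtain ⟨p1, p2, -, p3⟩ := h.pata_PI hx' hk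
  have h2 := pata_ne p2
  have hN := h.qT_U hx' p1 h2 (h.PE_ndvd hx' hk') p3 j
  rw [← h.chi_val_frb hx hk]
  constructor
  · intro hl
    have h3 := Tw.LocT.oneU p1 h2 hN hl (b := P k) (congrArg kT (h.chi_val_sig hx' hk P)) _
      (frb_mem p1 h2)
    rw [h.chi_val_add hx', h.chi_val_smul hx', h.pat_chi hx', patb_eq]
    exact kT_inj h3
  · intro h3
    have h4 := chi_Gv p1 h2 (h.val_ne hx' _) (by
      rw [h.chi_val_add hx', h.chi_val_smul hx', h.pat_chi hx', h.chi_val_sig hx' hk,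
        show chi _ _ = 1 from hN, mul_one, patb_eq]) h3
    refine (Tw.locT_del _ _ (P k)).congr (fun _ _ => rfl) fun g hg => ?_
    have h5 := h4 g hg
    rw [h.chi_val_add hx', h.chi_val_smul hx', h.pat_chi hx', patb_eq] at h5
    exact congrArg kT h5

theorem Wf.qR_of (h : B.Wf) (hx : x ∈ B.fib a) (hP : ((B.qT x).it j).IsZ ∅ 1 (B.qc x P)) :
    B.qR j a P := by
  refine pat_qR.2 fun k hk => ?_
  have hx' := (mem_fib.1 hx).1
  obtain ⟨p1, p2, -, p3⟩ := h.pata_PI hx' hk.1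
  refine (h.pat_loc hx hk j P).1 (hP.ram _ p1 (pata_ne p2) ?_ id)
  rw [Tw.dvd_it _ p1 (pata_ne p2), h.qT_dvd hx' p1]
  exact p3

/-- The Selmer patterns depend only on the Legendre matrix. -/
theorem Wf.mem_qS (h : B.Wf) (hr : B.Rf) (hx : x ∈ B.fib a)
    (hP : ((B.qT x).it j).IsZ ∅ 1 (B.qc x P)) : P ∈ B.qS j a := by
  refine mem_filter.2 ⟨mem_univ _, fun y hy => ?_⟩
  have hx' := (mem_fib.1 hx).1
  have hy' := (mem_fib.1 hy).1
  have h1 : ∀ v : ℕ, v = 0 ∨ (v.Prime ∧ (v : ℤ) ∣ 30 * B.D0) → ∀ A, ∀ g ∈ Gv v,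
      chi (B.val y A) g = chi (B.val x A) g := fun v hs A g hg => by
    rw [h.chi_val hx', h.chi_val hy']
    refine sum_congr rfl fun k _ => congrArg _ ?_
    rcases k with k | j
    · rfl
    · exact patb_eq.1 ((chi_mul (h.gen_ne hy' (.inr j)) (h.gen_ne hx' (.inr j)) g).symm.trans
        (h.chi_small (mem_pts.1 hy' j) (mem_pts.1 hx' j) hs g hg))
  have h2 : ∀ z ∈ B.pts, ∀ q : ℕ, q.Prime → q ≠ 2 → (q : ℤ) ∣ 30 * B.D0 →
      ((q : ℤ) ∣ ((B.qT z).it j).N ↔ (q : ℤ) ∣ B.D0) := fun z hz q hq q2 hd => by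
    rw [Tw.dvd_it _ hq q2, h.qT_dvd hz hq, DD]
    refine ⟨fun k => ?_, fun k => k.mul_right _⟩
    have hp' := Nat.prime_iff_prime_int.1 hq
    refine (hp'.dvd_or_dvd k).resolve_right fun k => ?_
    obtain ⟨i, -, hi⟩ := hp'.exists_mem_finset_dvd k
    obtain rfl := (Nat.prime_dvd_prime_iff_eq hq (h.prime i _ (mem_pts.1 hz i))).1
      (Int.natCast_dvd_natCast.1 hi)
    exact h.cop i _ (mem_pts.1 hz i) hd
  refine ⟨fun g => by rw [pow_one]; exact w_kum _ g, fun g k => ?_, lc_kum _, fun v hv => ?_,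
    fun q hq q2 hd _ => ?_, fun _ hv => hv.elim, fun p hp p2 hD => ?_⟩
  · rw [qc, kum_hom, Tw.tw_ker _ _ (w_kum _ k)]
  · refine (hP.loc v hv).congr (h.zq_eq hr hx' hy' (hv.imp_right ?_) j)
      fun g hg => congrArg kT (h1 v (hv.imp_right ?_) P g hg)
    · rintro rfl
      exact ⟨Nat.prime_two, dvd_mul_right _ _⟩
    · rintro rfl
      exact ⟨Nat.prime_two, Dvd.dvd.mul_right (by norm_num) _⟩
  · by_cases hs : (q : ℤ) ∣ 30 * B.D0
    · have d0 := (h2 y hy' q hq q2 hs).1 hd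
      have d1 := (h2 x hx' q hq q2 hs).2 d0
      by_cases he : q ∣ B.e
      · exact (hP.ram q hq q2 d1 id).congr (h.zq_eq hr hx' hy' (.inr ⟨hq, he.mul_left _⟩) j)
          fun g hg => congrArg kT (h1 q (.inr ⟨hq, hs⟩) P g hg)
      have k := Tw.LocT.oneU hq q2 (h.qT_U hx' hq q2 he (d0.mul_right _) j) (hP.ram q hq q2 d1 id)
        (b := chi (B.val x P) (sig q)) rfl
      refine (Tw.locT_del _ q (chi (B.val x P) (sig q))).congr (fun _ _ => rfl) fun g hg => ?_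
      have k1 := k g hg
      rw [← h.pat_chi hx', ← h1 q (.inr ⟨hq, hs⟩) _ g hg, h.pat_chi hy'] at k1
      exact (congrArg kT (h1 q (.inr ⟨hq, hs⟩) P g hg)).trans k1
    · have hp' := Nat.prime_iff_prime_int.1 hq
      rw [Tw.dvd_it _ hq q2, h.qT_dvd hy' hq, DD] at hd
      obtain ⟨i, -, hi⟩ := hp'.exists_mem_finset_dvd
        ((hp'.dvd_or_dvd hd).resolve_left fun k => hs (k.mul_left _))
      obtain rfl := (Nat.prime_dvd_prime_iff_eq hq (h.prime i _ (mem_pts.1 hy' i))).1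
        (Int.natCast_dvd_natCast.1 hi)
      exact (h.pat_loc hy (PE_inr i) j P).2 (pat_qR.1 (h.qR_of hx hP) (.inr i) (PE_inr i))
  · by_cases hs : (p : ℤ) ∣ 30 * B.D0
    · exact (congrArg kT (h1 p (.inr ⟨hp, hs⟩) P _ (sig_mem hp p2))).trans (hP.unr p hp p2
        fun k => hD ((h2 y hy' p hp p2 hs).2 ((h2 x hx' p hp p2 hs).1 k)))
    · rw [Tw.dvd_it _ hp p2, h.qT_dvd hy' hp] at hD
      rw [qc, kum, h.chi_val_unr hy' hp fun k => ?_, map_zero]
      exact ((Nat.prime_iff_prime_int.1 hp).dvd_or_dvd k).elim (fun k => hs (k.mul_right _)) hD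

theorem isZ_of_qS (hP : P ∈ B.qS j a) (hx : x ∈ B.fib a) : ((B.qT x).it j).IsZ ∅ 1 (B.qc x P) :=
  (mem_filter.1 hP).2 x hx

theorem Wf.add_mem_qS (h : B.Wf) (hP : P ∈ B.qS j a) (hP' : P' ∈ B.qS j a) :
    P + P' ∈ B.qS j a := by
  refine mem_filter.2 ⟨mem_univ _, fun y hy => ?_⟩
  rw [h.qc_add (mem_fib.1 hy).1]
  exact (isZ_of_qS hP hy).add (isZ_of_qS hP' hy)

theorem Wf.zero_mem_qS (h : B.Wf) : 0 ∈ B.qS j a := by
  refine mem_filter.2 ⟨mem_univ _, fun y hy => ?_⟩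
  rw [h.qc_zero (mem_fib.1 hy).1]
  exact Tw.isZ_zero _ _ _

theorem qS_add (j m : ℕ) (a : B.Mat) : B.qS (j + 2 * m) a = B.qS j a := by
  refine filter_congr fun P _ => forall₂_congr fun x _ => ?_
  rw [← Tw.it_it]
  exact Set.ext_iff.1 (Tw.ZZ_it _ m) _

theorem Wf.card_qS (h : B.Wf) (hr : B.Rf) (hx : x ∈ B.fib a) (j : ℕ) :
    (((B.qT x).it j).ZZ 1).ncard = (B.qS j a).card := by
  have hx' := (mem_fib.1 hx).1
  rw [← Set.ncard_coe_finset, ← Set.ncard_image_of_injective _ (h.qc_inj hx')]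
  refine congrArg _ (Set.ext fun c => ⟨fun hc => ?_, ?_⟩)
  · obtain ⟨P, rfl⟩ := h.exists_qc hx' hc
    exact ⟨P, h.mem_qS hr hx hc, rfl⟩
  · rintro ⟨P, hP, rfl⟩
    exact isZ_of_qS hP hx

theorem Wf.card_qS_le (h : B.Wf) (hG : B.qG K a) (hne : (B.fib a).Nonempty) (j : ℕ) :
    (B.qS j a).card ≤ K := by
  obtain ⟨x, hx⟩ := hne
  refine le_trans (card_le_card_of_injOn (fun P => if Even j then (P, 0) else (0, P))
    (fun P hP => mem_coe.2 (mem_filter.2 ⟨mem_univ _, h.qR_of hx (isZ_of_qS hP hx)⟩))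
    fun P _ P' _ e => ?_) hG.g1
  by_cases k : Even j
  · simp only [if_pos k] at e
    exact congrArg Prod.fst e
  · simp only [if_neg k] at e
    exact congrArg Prod.snd e

theorem qR.eq_zero (hB : B.Hyp 1) (h : B.qR j a P) (h0 : B.lg P = 0) : P = 0 := by
  unfold qR at h
  split_ifs at h
  · exact congrArg Prod.fst (h.eq_zero hB.toE h0 rfl)
  · exact congrArg Prod.snd (h.eq_zero hB.toE rfl h0)

theorem exists_qD (hB : B.Hyp 1) (hG : B.qG K a) (hne : (B.fib a).Nonempty) :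
    ∃ Jev : Finset (Fin B.r), Jev.card ≤ K ∧ B.qD a Jev := by
  obtain ⟨x, hx⟩ := hne
  obtain ⟨J, h1, h2⟩ := exists_Jev hB.toE hG
  refine ⟨J, h1, fun j Q hQ h0 => ?_⟩
  have k := hB.wf.qR_of hx (isZ_of_qS hQ hx)
  unfold qR at k
  split_ifs at k
  · exact congrArg Prod.fst (h2 _ k fun i hi => ⟨h0 i hi, rfl⟩)
  · exact congrArg Prod.snd (h2 _ k fun i hi => ⟨rfl, h0 i hi⟩)

/-- Detection of Selmer classes by their values at the primes of `Jev`. -/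
theorem Wf.qdet (h : B.Wf) (hr : B.Rf) {Jev : Finset (Fin B.r)} (hd : B.qD a Jev)
    (hx : x ∈ B.fib a) {c : GQ → A} (hc : ((B.qT x).it j).IsZ ∅ 1 c)
    (h0 : ∀ i ∈ Jev, c (sig (x i)) = 0) : c = 0 := by
  have hx' := (mem_fib.1 hx).1
  obtain ⟨P, rfl⟩ := h.exists_qc hx' hc
  rw [hd j P (h.mem_qS hr hx hc) fun i hi =>
    kT_inj ((h.qc_sig hx' P i).symm.trans ((h0 i hi).trans (map_zero kT).symm)), h.qc_zero hx']

/-- The directions of a grid: the pointer copies the index `j1` on the side `j` and vanishes on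
the other side, the pivot copies the index `j3` on the side `j'`. -/
theorem exists_qdirs {n m : ℕ} (hB : B.Hyp (2 * K ^ 2 * (m + n + 3))) (hG : B.qG K a)
    (j j' : ℕ) (j0 j1 j3 : Fin B.r) (F : Finset (Fin B.r)) (hF : F.card ≤ m) :
    ∃ σ : Sx n → Fin B.r, Injective σ ∧ (∀ i, σ i ∉ F) ∧ (∀ i, σ (.inl i) ∈ B.I 0) ∧
      σ ic ∈ B.I 1 ∧ σ ia ∈ B.I 2 ∧
      (∀ P, B.qR j a P → P (.inr j0) = 0 →
        (∀ i, P (.inr (σ (.inl i))) = 0) ∧ P (.inr (σ ia)) = P (.inr j1)) ∧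
      ∀ P, B.qR j' a P → P (.inr j0) = 0 →
        (∀ i, P (.inr (σ (.inl i))) = 0) ∧ P (.inr (σ ic)) = P (.inr j3) ∧
          P (.inr (σ ia)) = if Even (j + j') then P (.inr j1) else 0 := by
  obtain ⟨σ, s1, s2, s3, s4, s5, s6⟩ := exists_dirs hB.toE hG j0 j1 j1 j3 j3
    (if Even j then 1 else 0) (if Even j then 0 else 1) 1 1 F hF
  refine ⟨σ, s1, s2, s3, s4, s5, fun P hP h0 => ?_, fun P hP h0 => ?_⟩
  · unfold qR at hP
    split_ifs at hP with e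
    · obtain ⟨k1, ⟨k2, -⟩, -⟩ := s6 _ hP h0 rfl
      exact ⟨fun i => (k1 i).1, k2.trans (by rw [if_pos e, one_mul])⟩
    · obtain ⟨k1, ⟨-, k2⟩, -⟩ := s6 _ hP rfl h0
      exact ⟨fun i => (k1 i).2, k2.trans (by rw [if_neg e, one_mul])⟩
  · unfold qR at hP
    split_ifs at hP with e
    · obtain ⟨k1, ⟨k2, -⟩, k3, -⟩ := s6 _ hP h0 rfl
      refine ⟨fun i => (k1 i).1, k3.trans (one_mul _), k2.trans ?_⟩
      by_cases e' : Even j <;> simp [Nat.even_add, e, e']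
    · obtain ⟨k1, ⟨-, k2⟩, -, k3⟩ := s6 _ hP rfl h0
      refine ⟨fun i => (k1 i).2, k3.trans (one_mul _), k2.trans ?_⟩
      by_cases e' : Even j <;> simp [Nat.even_add, e, e']

/-- A point with many liftable classes has a liftable class that is not a torsion class. -/
theorem exists_qnorm (hB : B.Hyp 1) (hr : B.Rf) (hx : x ∈ B.fib a) {m : ℕ}
    (h : (B.qT x).Big (2 * m)) (j0 : Fin B.r) : ∃ j ≤ 1, ∃ P ∈ B.qS j a, P (.inr j0) = 0 ∧
      (∃ i, P (.inr i) = 1) ∧ B.qc x P ∈ ((B.qT x).it j).AA (2 * m) := by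
  have hw := hB.wf
  have hx' := (mem_fib.1 hx).1
  obtain ⟨j, hj, h1⟩ : ∃ j ≤ 1, 2 < (((B.qT x).it j).AA (2 * m)).ncard := by
    by_contra k
    push Not at k
    have k0 := k 0 zero_le_one
    rw [Tw.it_zero] at k0
    have := h.trans (Nat.mul_le_mul k0 (k 1 le_rfl))
    omega
  have hz : ∀ c ∈ ((B.qT x).it j).AA (2 * m), ((B.qT x).it j).IsZ ∅ 1 c := fun c hc =>
    (Set.ext_iff.1 (Tw.ZZ_it _ m) c).1 (Tw.AA_sub _ _ hc)
  obtain ⟨c, hc, hc'⟩ : ∃ c ∈ ((B.qT x).it j).AA (2 * m),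
      c ∉ ({B.qc x 0, B.qc x (B.qt j)} : Set (GQ → A)) := by
    by_contra k
    push Not at k
    have := (Set.ncard_le_ncard k (Set.toFinite _)).trans (Set.ncard_insert_le _ _)
    rw [Set.ncard_singleton] at this
    omega
  obtain ⟨Q, rfl⟩ := hw.exists_qc hx' (hz c hc)
  have h2 : B.qc x (Q + Q (.inr j0) • B.qt j) ∈ ((B.qT x).it j).AA (2 * m) := by
    rw [hw.qc_add hx', hw.qc_qt hx']
    refine Tw.add_mem_AA hc ?_
    have := Tw.del_mem_AA ((B.qT x).it j) (2 * m) (Q (.inr j0))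
    simpa only [Tw.chi_it _ (2 * m), ZMod.natCast_eq_zero_iff_even.2 (even_two_mul m), zero_mul,
      add_zero] using this
  refine ⟨j, hj, _, hw.mem_qS hr hx (hz _ h2), ?_, ?_, h2⟩
  · rw [Pi.add_apply, Pi.smul_apply, qt_inr, smul_eq_mul, mul_one, CharTwo.add_self_eq_zero]
  · by_contra k
    push Not at k
    have h3 := (hw.qR_of hx (hz _ h2)).eq_zero hB
      (funext fun i => (F2_cases _).resolve_right (k i))
    have h4 : Q = Q (.inr j0) • B.qt j := funext fun i => patb_eq.1 (congrFun h3 i)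
    rcases F2_cases (Q (.inr j0)) with e | e <;> rw [e] at h4
    · exact hc' (Or.inl (by rw [h4, zero_smul]))
    · exact hc' (Or.inr (by rw [h4, one_smul]; rfl))

end KB

end Pool.Agent.Lib.MP_696deb_nt.QK
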