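import Pool.Agent.Lib.MP_696deb_nt.QK.Comp
import Pool.Agent.Lib.MP_696deb_nt.QA.TopE

/-! The companion of a twist with root number minus one. -/

set_option autoImplicit false

namespace Pool.Agent.Lib.MP_696deb_nt.QK

open QA (Wq)
open QP (EQ)
open B2.Stmt (CorankLE)

/-- The companion has corank zero and its central value is not zero. -/
theorem Pair.zero {N : ℤ} (hc : QA.Conv) (hN : QA.Fam N) (h : Pair N) (hw : ¬ Wq N) :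
    CorankLE (EQ N) 1 ∧ (∃ q : ℕ, q.Prime ∧ q ≠ 2 ∧ q ≠ 5 ∧ Odd (padicValInt q N)) ∧
    ∃ N', Comp N N' ∧ Wq N' ∧ CorankLE (EQ N') 0 ∧ ∀ F : ℂ → ℂ, Differentiable ℂ F →
      (∀ s : ℂ, (3 : ℝ) / 2 < s.re → HasProd (fun p : ℕ =>
        if p.Prime ∧ ¬ ((p : ℤ) ∣ 2 * (-4 * (-N') ^ 3 - 27 * 0 ^ 2)) then
          (1 - ((p : ℂ) - (QF.cnt N' p : ℂ)) * (p : ℂ) ^ (-s) + (p : ℂ) ^ (1 - 2 * s))⁻¹ else 1)
        (F s)) → F 1 ≠ 0 := by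
  obtain ⟨h1, N', h2, h3, q, q1, q2, q3, q4, q5⟩ := h
  have w := (h2.wq hN).2 hw
  have z := QP.par_zero4 h2.1 h3 w (QT.link h2.1.ne)
  exact ⟨h1, ⟨q, q1, q2, q3, q4⟩, N', h2, w, z, hc N' h2.1 q q1 q2 q5 z⟩

end Pool.Agent.Lib.MP_696deb_nt.QK
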